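import Mathlib

/-!
# Lifting `k`-th powers modulo powers of an arbitrary base `b`

If `gcd(k, b^(c+1))` divides `b^c` (true for `c = k`, and for `c = 0` if `k` and `b` are coprime)
then every integer `u ≡ 1` modulo `b^(2c+1)` is a `k`-th power modulo `b^m` for every `m`.
-/

set_option autoImplicit false

namespace Pool.Agent.H16.WD

lemma gcd_pow_dvd {k b : ℕ} (hk : 0 < k) (hb : 0 < b) : Nat.gcd k (b ^ (k + 1)) ∣ b ^ k := by
  have hg : Nat.gcd k (b ^ (k + 1)) ≠ 0 := Nat.gcd_ne_zero_left hk.ne'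
  have hbk : b ^ k ≠ 0 := (pow_pos hb k).ne'
  rw [← Nat.factorization_le_iff_dvd hg hbk]
  intro p
  by_cases hp : (Nat.gcd k (b ^ (k + 1))).factorization p = 0
  · rw [hp]; exact Nat.zero_le _
  · have hpp : p.Prime := by
      by_contra h
      exact hp (Nat.factorization_eq_zero_of_not_prime _ h)
    have hpd : p ∣ Nat.gcd k (b ^ (k + 1)) := by
      by_contra h
      exact hp (Nat.factorization_eq_zero_of_not_dvd h)
    have hpb : p ∣ b := hpp.dvd_of_dvd_pow (hpd.trans (Nat.gcd_dvd_right _ _))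
    have h1 : 1 ≤ b.factorization p := (hpp.dvd_iff_one_le_factorization hb.ne').1 hpb
    have h2 : (Nat.gcd k (b ^ (k + 1))).factorization p ≤ k.factorization p :=
      (Nat.factorization_le_iff_dvd hg hk.ne').2 (Nat.gcd_dvd_left _ _) p
    have h3 : k.factorization p < k := Nat.factorization_lt p hk.ne'
    rw [Nat.factorization_pow, Finsupp.smul_apply, smul_eq_mul]
    calc _ ≤ k := by omega
      _ ≤ k * b.factorization p := Nat.le_mul_of_pos_right _ h1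

lemma lift_step {k b c m : ℕ} (hc : Nat.gcd k (b ^ (c + 1)) ∣ b ^ c) (hm : 2 * c + 1 ≤ m)
    {y u : ℤ} (hy : IsCoprime y (b : ℤ)) (h : (b : ℤ) ^ m ∣ y ^ k - u) :
    ∃ y' : ℤ, (b : ℤ) ^ (m - c) ∣ y' - y ∧ (b : ℤ) ^ (m + 1) ∣ y' ^ k - u := by
  obtain ⟨e, he⟩ := h
  have h1 : ∃ x1 y1 : ℤ, (b : ℤ) ^ c = k * x1 + (b : ℤ) ^ (c + 1) * y1 := by
    have h2 : Int.gcd (k : ℤ) ((b : ℤ) ^ (c + 1)) ∣ b ^ c := by
      have : Int.gcd (k : ℤ) ((b : ℤ) ^ (c + 1)) = Nat.gcd k (b ^ (c + 1)) := by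
        rw [← Nat.cast_pow, Int.gcd_natCast_natCast]
      rw [this]; exact hc
    obtain ⟨x1, y1, h3⟩ := Int.gcd_dvd_iff.1 h2
    exact ⟨x1, y1, by push_cast at h3; exact h3⟩
  obtain ⟨x1, y1, h1⟩ := h1
  have hcop : IsCoprime (y ^ (k - 1)) ((b : ℤ) ^ (c + 1)) := hy.pow
  obtain ⟨a1, b1, h2⟩ := hcop
  obtain ⟨r, hr⟩ := Polynomial.powAddExpansion y ((b : ℤ) ^ (m - c) * (-(e * (a1 * x1)))) k
  refine ⟨y + (b : ℤ) ^ (m - c) * (-(e * (a1 * x1))), ⟨-(e * (a1 * x1)), by ring⟩, ?_⟩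
  have hpow : (b : ℤ) ^ m = (b : ℤ) ^ (m - c) * (b : ℤ) ^ c := by
    rw [← pow_add]; congr 1; omega
  have hpow1 : (b : ℤ) ^ (m + 1) = (b : ℤ) ^ (m - c) * (b : ℤ) ^ (c + 1) := by
    rw [← pow_add]; congr 1; omega
  have hpow2 : (b : ℤ) ^ (m - c) = (b : ℤ) ^ (c + 1) * (b : ℤ) ^ (m - c - (c + 1)) := by
    rw [← pow_add]; congr 1; omega
  have hmain : (y + (b : ℤ) ^ (m - c) * (-(e * (a1 * x1)))) ^ k - u =
      (b : ℤ) ^ (m + 1) * (e * (k * x1 * b1 + y1) +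
        r * (b : ℤ) ^ (m - c - (c + 1)) * (-(e * (a1 * x1))) ^ 2) := by
    rw [hr]
    have e1 : y ^ k = u + (b : ℤ) ^ m * e := by linarith
    have e2 : (k : ℤ) * y ^ (k - 1) * (a1 * x1) = (b : ℤ) ^ c -
        (b : ℤ) ^ (c + 1) * (k * x1 * b1 + y1) := by
      have : a1 * y ^ (k - 1) = 1 - b1 * (b : ℤ) ^ (c + 1) := by linarith
      calc (k : ℤ) * y ^ (k - 1) * (a1 * x1) = k * x1 * (a1 * y ^ (k - 1)) := by ring
        _ = k * x1 - (b : ℤ) ^ (c + 1) * (k * x1 * b1) := by rw [this]; ring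
        _ = _ := by rw [h1]; ring
    have e3 : ((b : ℤ) ^ (m - c) * (-(e * (a1 * x1)))) ^ 2 =
        (b : ℤ) ^ (m + 1) * (b : ℤ) ^ (m - c - (c + 1)) * (-(e * (a1 * x1))) ^ 2 := by
      rw [mul_pow, sq ((b : ℤ) ^ (m - c)), hpow1]
      nth_rewrite 2 [hpow2]
      ring
    calc y ^ k + k * y ^ (k - 1) * ((b : ℤ) ^ (m - c) * (-(e * (a1 * x1)))) +
          r * ((b : ℤ) ^ (m - c) * (-(e * (a1 * x1)))) ^ 2 - u
        = (b : ℤ) ^ m * e - (b : ℤ) ^ (m - c) * e * (k * y ^ (k - 1) * (a1 * x1)) +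
          r * ((b : ℤ) ^ (m - c) * (-(e * (a1 * x1)))) ^ 2 := by rw [e1]; ring
      _ = _ := by rw [e2, e3, hpow, hpow1]; ring
  exact ⟨_, hmain⟩

lemma hensel {k b c : ℕ} (hc : Nat.gcd k (b ^ (c + 1)) ∣ b ^ c) {u : ℤ}
    (hu : (b : ℤ) ^ (2 * c + 1) ∣ 1 - u) (m : ℕ) : ∃ y : ℤ, (b : ℤ) ^ m ∣ y ^ k - u := by
  have key : ∀ i : ℕ, ∃ y : ℤ, (b : ℤ) ∣ y - 1 ∧ (b : ℤ) ^ (2 * c + 1 + i) ∣ y ^ k - u := by
    intro i
    induction i with
    | zero => exact ⟨1, by simp, by simpa using hu⟩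
    | succ i ih =>
      obtain ⟨y, hy1, hy2⟩ := ih
      have hcop : IsCoprime y (b : ℤ) := by
        obtain ⟨z, hz⟩ := hy1
        exact ⟨1, -z, by linarith⟩
      obtain ⟨y', h1, h2⟩ := lift_step hc (by omega) hcop hy2
      refine ⟨y', ?_, by rw [show 2 * c + 1 + (i + 1) = 2 * c + 1 + i + 1 by ring]; exact h2⟩
      have h3 : (b : ℤ) ∣ y' - y :=
        (dvd_pow_self (b : ℤ) (by omega : 2 * c + 1 + i - c ≠ 0)).trans h1
      have := dvd_add h3 hy1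
      simpa using this
  obtain ⟨y, -, hy⟩ := key m
  exact ⟨y, (pow_dvd_pow _ (by omega)).trans hy⟩

end Pool.Agent.H16.WD
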