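import Mathlib
import Pool.Agent.H16.WD.Hensel

/-!
# One step of the greedy algorithm at the real place and at the places dividing `b`
-/

set_option autoImplicit false

namespace Pool.Agent.H16.WD

lemma exists_root (k w : ℕ) (hk : 0 < k) : ∃ Y : ℕ, Y ^ k ≤ w ∧ w < (Y + 1) ^ k := by
  have h0 : (0:ℕ) ^ k ≤ w := by rw [zero_pow hk.ne']; exact Nat.zero_le _
  refine ⟨Nat.findGreatest (fun Y => Y ^ k ≤ w) w, Nat.findGreatest_spec (P := fun Y => Y ^ k ≤ w)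
    (Nat.zero_le w) h0, ?_⟩
  by_contra h
  rw [not_lt] at h
  have h1 : Nat.findGreatest (fun Y => Y ^ k ≤ w) w + 1 ≤ w :=
    (Nat.le_self_pow hk.ne' _).trans h
  have := Nat.le_findGreatest (P := fun Y => Y ^ k ≤ w) h1 h
  omega

lemma step {k b c : ℕ} (hk : 2 ≤ k) (hb : 2 ≤ b) (hc : Nat.gcd k (b ^ (c + 1)) ∣ b ^ c) (hγ : 2 * c + 1 ≤ 3 * k)
    {a w : ℕ} (ha : 3 ≤ a) (hw : w ≡ 1 [MOD b ^ (2 * c + 1)])
    (hbig : ((2 ^ k + 1) * b ^ (k * a + (2 * c + 1))) ^ k ≤ w) :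
    ∃ y w' : ℕ, 1 ≤ y ∧ w = y ^ k + b ^ (k * a) * w' ∧ w' ≡ 1 [MOD b ^ (2 * c + 1)] ∧
      (w : ℝ) ^ (1 - 1 / (k : ℝ)) ≤ w' ∧
      (w' : ℝ) ≤ (k * (2 ^ k + 1) * 2 ^ (k - 1) * b ^ (2 * c + 1)) * (w : ℝ) ^ (1 - 1 / (k : ℝ)) := by
  set γ := 2 * c + 1 with hγd
  set B : ℕ := b ^ (k * a + γ) with hB
  have hB0 : 0 < B := pow_pos (by omega) _
  obtain ⟨Y, hY1, hY2⟩ := exists_root k w (by omega)
  have hYB : (2 ^ k + 1) * B ≤ Y := by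
    by_contra h
    rw [not_le] at h
    have h1 : (Y + 1) ^ k ≤ ((2 ^ k + 1) * B) ^ k := Nat.pow_le_pow_left h k
    omega
  -- the `b`-adic root
  have hu : (b : ℤ) ^ (2 * c + 1) ∣ 1 - ((w : ℤ) - (b : ℤ) ^ (k * a)) := by
    have h1 : (b : ℤ) ^ (2 * c + 1) ∣ 1 - (w : ℤ) := by
      have := (Nat.modEq_iff_dvd.1 hw)
      push_cast at this
      exact this
    have h2 : (b : ℤ) ^ (2 * c + 1) ∣ (b : ℤ) ^ (k * a) := by
      apply pow_dvd_pow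
      calc 2 * c + 1 ≤ 3 * k := hγ
        _ ≤ k * a := by nlinarith
    have := dvd_add h1 h2
    have e : 1 - ((w : ℤ) - (b : ℤ) ^ (k * a)) = 1 - (w : ℤ) + (b : ℤ) ^ (k * a) := by ring
    rw [e]; exact this
  obtain ⟨y0, hy0⟩ := hensel hc hu (k * a + γ)
  set lo : ℤ := (Y : ℤ) - (2 ^ k + 1) * B + 1 with hlo
  set y : ℤ := lo + (y0 - lo) % (B : ℤ) with hy
  have hBz : (0 : ℤ) < B := by exact_mod_cast hB0
  have hm1 : 0 ≤ (y0 - lo) % (B : ℤ) := Int.emod_nonneg _ hBz.ne'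
  have hm2 : (y0 - lo) % (B : ℤ) < B := Int.emod_lt_of_pos _ hBz
  have hYBz : ((2 : ℤ) ^ k + 1) * B ≤ Y := by exact_mod_cast hYB
  have hy1 : 1 ≤ y := by rw [hy, hlo]; linarith
  have hy2 : y ≤ (Y : ℤ) - 2 ^ k * B := by
    rw [hy, hlo]
    have : (y0 - lo) % (B : ℤ) ≤ B - 1 := by linarith
    linarith
  have hy3 : (Y : ℤ) + 1 - y ≤ (2 ^ k + 1) * B := by rw [hy, hlo]; linarith
  have hyy0 : (B : ℤ) ∣ y - y0 := by
    refine ⟨-((y0 - lo) / (B : ℤ)), ?_⟩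
    have := Int.mul_ediv_add_emod (y0 - lo) (B : ℤ)
    rw [hy]
    linarith
  have hdv : (B : ℤ) ∣ y ^ k - ((w : ℤ) - (b : ℤ) ^ (k * a)) := by
    have h1 : (B : ℤ) ∣ y ^ k - y0 ^ k := hyy0.trans (sub_dvd_pow_sub_pow _ _ _)
    have h2 : (B : ℤ) ∣ y0 ^ k - ((w : ℤ) - (b : ℤ) ^ (k * a)) := by
      rw [hB]; push_cast; exact hy0
    have := dvd_add h1 h2
    simpa using this
  obtain ⟨z, hz⟩ := hdv
  have hBe : (B : ℤ) = (b : ℤ) ^ (k * a) * (b : ℤ) ^ γ := by rw [hB]; push_cast; rw [pow_add]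
  have hwz : (w : ℤ) - y ^ k = (b : ℤ) ^ (k * a) * (1 - (b : ℤ) ^ γ * z) := by
    rw [hBe] at hz
    linarith
  -- positivity
  have hYpos : (0 : ℤ) < Y := by
    have : (0 : ℤ) < (2 ^ k + 1) * B := by positivity
    linarith
  have hbka : (0 : ℤ) < (b : ℤ) ^ (k * a) := by positivity
  have hYz : (Y : ℤ) ^ k ≤ w := by exact_mod_cast hY1
  have hYz2 : (w : ℤ) < ((Y : ℤ) + 1) ^ k := by exact_mod_cast hY2
  have hk1 : k = (k - 1) + 1 := by omega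
  have hlow : (2 : ℤ) ^ k * B * (Y : ℤ) ^ (k - 1) ≤ (w : ℤ) - y ^ k := by
    have h1 : y ^ k ≤ ((Y : ℤ) - 2 ^ k * B) * (Y : ℤ) ^ (k - 1) := by
      have h2 : y ^ (k - 1) ≤ (Y : ℤ) ^ (k - 1) := by
        apply pow_le_pow_left₀ (by linarith)
        have : (0 : ℤ) ≤ 2 ^ k * B := by positivity
        linarith
      calc y ^ k = y * y ^ (k - 1) := by nth_rewrite 1 [hk1]; rw [pow_succ]; ring
        _ ≤ ((Y : ℤ) - 2 ^ k * B) * (Y : ℤ) ^ (k - 1) := by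
            apply mul_le_mul hy2 h2 (by positivity) (by linarith)
    have h3 : (Y : ℤ) ^ k = Y * (Y : ℤ) ^ (k - 1) := by nth_rewrite 1 [hk1]; rw [pow_succ]; ring
    nlinarith
  have hupp : (w : ℤ) - y ^ k ≤ (2 ^ k + 1) * B * k * ((Y : ℤ) + 1) ^ (k - 1) := by
    have h1 := abs_pow_sub_pow_le ((Y : ℤ) + 1) y k
    have h2 : max |(Y : ℤ) + 1| |y| = (Y : ℤ) + 1 := by
      rw [abs_of_pos (by linarith), abs_of_pos (by linarith)]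
      apply max_eq_left
      have : (0 : ℤ) ≤ 2 ^ k * B := by positivity
      linarith
    rw [h2] at h1
    have h3 : |(Y : ℤ) + 1 - y| ≤ (2 ^ k + 1) * B := by
      rw [abs_of_nonneg]
      · exact hy3
      · have : (0 : ℤ) ≤ 2 ^ k * B := by positivity
        linarith
    calc (w : ℤ) - y ^ k ≤ ((Y : ℤ) + 1) ^ k - y ^ k := by linarith
      _ ≤ |((Y : ℤ) + 1) ^ k - y ^ k| := le_abs_self _
      _ ≤ |(Y : ℤ) + 1 - y| * k * ((Y : ℤ) + 1) ^ (k - 1) := h1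
      _ ≤ _ := by gcongr
  have hw'pos : 0 < 1 - (b : ℤ) ^ γ * z := by
    by_contra h
    rw [not_lt] at h
    have h1 : (b : ℤ) ^ (k * a) * (1 - (b : ℤ) ^ γ * z) ≤ 0 := mul_nonpos_of_nonneg_of_nonpos hbka.le h
    have h2 : 0 < (2 : ℤ) ^ k * B * (Y : ℤ) ^ (k - 1) := by positivity
    linarith
  obtain ⟨v, hv⟩ := Int.eq_ofNat_of_zero_le hw'pos.le
  obtain ⟨x, hx⟩ := Int.eq_ofNat_of_zero_le (by linarith : (0 : ℤ) ≤ y)
  rw [hv] at hwz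
  rw [hx] at hwz hlow hupp hy1
  refine ⟨x, v, by exact_mod_cast hy1, ?_, ?_, ?_, ?_⟩
  · have : (w : ℤ) = (x : ℤ) ^ k + (b : ℤ) ^ (k * a) * v := by linarith
    exact_mod_cast this
  · apply Nat.ModEq.symm
    rw [Nat.modEq_iff_dvd]
    push_cast
    refine ⟨-z, ?_⟩
    rw [← hv]; ring
  all_goals
    have hkR : (0 : ℝ) < k := by exact_mod_cast (by omega : 0 < k)
    have hYR : (0 : ℝ) < Y := by exact_mod_cast hYpos
    have hkk : ((k - 1 : ℕ) : ℝ) = k * (1 - 1 / (k : ℝ)) := by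
      rw [Nat.cast_sub (by omega)]
      field_simp
      push_cast
      ring
    have hθ : 0 ≤ 1 - 1 / (k : ℝ) := by
      rw [sub_nonneg, div_le_one hkR]
      exact_mod_cast (by omega : 1 ≤ k)
    have hbR : (0 : ℝ) < (b : ℝ) ^ (k * a) := by
      have : (0 : ℝ) < b := by exact_mod_cast (by omega : 0 < b)
      positivity
    have hBR : (B : ℝ) = (b : ℝ) ^ (k * a) * (b : ℝ) ^ γ := by exact_mod_cast hBe
    have hpw : ∀ t : ℝ, 0 ≤ t → (t ^ k) ^ (1 - 1 / (k : ℝ)) = t ^ (k - 1) := by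
      intro t ht
      rw [← Real.rpow_natCast t k, ← Real.rpow_mul ht, ← hkk, Real.rpow_natCast]
    have hwzR : (w : ℝ) - (x : ℝ) ^ k = (b : ℝ) ^ (k * a) * v := by exact_mod_cast hwz
  · have hlowR : (2 : ℝ) ^ k * B * (Y : ℝ) ^ (k - 1) ≤ (w : ℝ) - (x : ℝ) ^ k := by exact_mod_cast hlow
    have h1 : (w : ℝ) ^ (1 - 1 / (k : ℝ)) ≤ ((Y : ℝ) + 1) ^ (k - 1) := by
      rw [← hpw _ (by positivity)]
      apply Real.rpow_le_rpow (by positivity) _ hθ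
      exact_mod_cast hY2.le
    have hY1R : (1 : ℝ) ≤ Y := by exact_mod_cast hYpos
    have h2 : ((Y : ℝ) + 1) ^ (k - 1) ≤ 2 ^ k * (Y : ℝ) ^ (k - 1) := by
      calc ((Y : ℝ) + 1) ^ (k - 1) ≤ (2 * (Y : ℝ)) ^ (k - 1) := by gcongr; linarith
        _ = 2 ^ (k - 1) * (Y : ℝ) ^ (k - 1) := by rw [mul_pow]
        _ ≤ _ := by gcongr <;> [norm_num; omega]
    have h3 : (2 : ℝ) ^ k * (b : ℝ) ^ γ * (Y : ℝ) ^ (k - 1) ≤ v := by
      rw [hwzR, hBR] at hlowR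
      have : (b : ℝ) ^ (k * a) * ((2 : ℝ) ^ k * (b : ℝ) ^ γ * (Y : ℝ) ^ (k - 1)) ≤ (b : ℝ) ^ (k * a) * v := by
        linarith
      exact le_of_mul_le_mul_left this hbR
    have h4 : (1 : ℝ) ≤ (b : ℝ) ^ γ := one_le_pow₀ (by exact_mod_cast (by omega : 1 ≤ b))
    have h5 : (2 : ℝ) ^ k * (Y : ℝ) ^ (k - 1) ≤ (2 : ℝ) ^ k * (b : ℝ) ^ γ * (Y : ℝ) ^ (k - 1) := by
      have : 0 ≤ (2 : ℝ) ^ k * (Y : ℝ) ^ (k - 1) := by positivity
      nlinarith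
    linarith
  · have huppR : (w : ℝ) - (x : ℝ) ^ k ≤ (2 ^ k + 1) * B * k * ((Y : ℝ) + 1) ^ (k - 1) := by exact_mod_cast hupp
    have hY1R : (1 : ℝ) ≤ Y := by exact_mod_cast hYpos
    have h2 : ((Y : ℝ) + 1) ^ (k - 1) ≤ 2 ^ (k - 1) * (w : ℝ) ^ (1 - 1 / (k : ℝ)) := by
      calc ((Y : ℝ) + 1) ^ (k - 1) ≤ (2 * (Y : ℝ)) ^ (k - 1) := by gcongr; linarith
        _ = 2 ^ (k - 1) * (Y : ℝ) ^ (k - 1) := by rw [mul_pow]
        _ = 2 ^ (k - 1) * ((Y : ℝ) ^ k) ^ (1 - 1 / (k : ℝ)) := by rw [hpw _ hYR.le]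
        _ ≤ _ := by
            gcongr
            exact_mod_cast hY1
    have h3 : (b : ℝ) ^ (k * a) * v ≤ (b : ℝ) ^ (k * a) *
        ((k * (2 ^ k + 1) * 2 ^ (k - 1) * b ^ γ) * (w : ℝ) ^ (1 - 1 / (k : ℝ))) := by
      rw [hwzR, hBR] at huppR
      refine huppR.trans ?_
      calc _ ≤ (2 ^ k + 1) * ((b : ℝ) ^ (k * a) * (b : ℝ) ^ γ) * k *
            (2 ^ (k - 1) * (w : ℝ) ^ (1 - 1 / (k : ℝ))) := by gcongr
        _ = _ := by ring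
    exact le_of_mul_le_mul_left h3 hbR

end Pool.Agent.H16.WD
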