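import Mathlib
import Pool.Agent.H16.WD.Step

/-!
# Iteration of the mixed greedy algorithm
-/

set_option autoImplicit false

open Finset

namespace Pool.Agent.H16.WD

/-- every `w ≡ 1` is a sum of `s` positive `k`th powers and `b^(k A') w'`, for every prescribed size of `b^(k A')` -/
def Rep (k b c s : ℕ) (C : ℝ) : Prop :=
  ∀ w A : ℕ, w ≡ 1 [MOD b ^ (2 * c + 1)] → C * (b : ℝ) ^ (k * A) ≤ (w : ℝ) ^ (1 - (1 - 1 / (k : ℝ)) ^ s) →
    ∃ (x : Fin s → ℕ) (A' w' : ℕ), (∀ i, 1 ≤ x i) ∧ w = ∑ i, x i ^ k + b ^ (k * A') * w' ∧ A ≤ A' ∧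
      A' ≤ A + 3 * s ∧ w' ≡ 1 [MOD b ^ (2 * c + 1)] ∧ (w : ℝ) ^ ((1 - 1 / (k : ℝ)) ^ s) ≤ w' ∧
      (w' : ℝ) ≤ C * (w : ℝ) ^ ((1 - 1 / (k : ℝ)) ^ s)

lemma rep_zero {k b c : ℕ} (hk : 2 ≤ k) (hb : 2 ≤ b) : Rep k b c 0 1 := by
  intro w A hw h
  have hA : A = 0 := by
    by_contra hA
    simp only [pow_zero, sub_self, Real.rpow_zero, one_mul] at h
    have h1 : (1 : ℝ) < (b : ℝ) ^ (k * A) :=
      one_lt_pow₀ (by exact_mod_cast (by omega : 1 < b)) (Nat.mul_ne_zero (by omega) hA)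
    linarith
  subst hA
  refine ⟨fun i => i.elim0, 0, w, fun i => i.elim0, by simp, le_rfl, by simp, hw, by simp, by simp⟩

lemma rep_succ {k b c s : ℕ} (hk : 2 ≤ k) (hb : 2 ≤ b) (hc : Nat.gcd k (b ^ (c + 1)) ∣ b ^ c)
    (hγ : 2 * c + 1 ≤ 3 * k) {Cs C' : ℝ} (hCs : 1 ≤ Cs) (hrep : Rep k b c s Cs)
    (h1 : (2 ^ k + 1 : ℝ) * (b : ℝ) ^ (3 * k + (2 * c + 1)) ≤
      C' ^ ((1 / (k : ℝ)) / (1 - (1 - 1 / (k : ℝ)) ^ (s + 1))))
    (h2 : Cs ≤ C' ^ (1 - (1 / (k : ℝ)) / (1 - (1 - 1 / (k : ℝ)) ^ (s + 1))))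
    (h3 : Cs * ((k : ℝ) * (2 ^ k + 1) * 2 ^ (k - 1) * (b : ℝ) ^ (2 * c + 1)) ≤ C') (hC' : 1 ≤ C') :
    Rep k b c (s + 1) C' := by
  intro w A hw hA
  set γ := 2 * c + 1 with hγd
  set θ : ℝ := 1 - 1 / (k : ℝ) with hθ
  set ρ : ℝ := (1 / (k : ℝ)) / (1 - θ ^ (s + 1)) with hρ
  set c2 : ℝ := (k : ℝ) * (2 ^ k + 1) * 2 ^ (k - 1) * (b : ℝ) ^ γ with hc2
  have hkR : (2 : ℝ) ≤ k := by exact_mod_cast hk
  have hkR0 : (0 : ℝ) < k := by linarith
  have hk1 : 1 / (k : ℝ) ≤ 1 / 2 := one_div_le_one_div_of_le (by norm_num) hkR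
  have hk1p : 0 < 1 / (k : ℝ) := by positivity
  have hθ0 : 0 < θ := by rw [hθ]; linarith
  have hθ1 : θ < 1 := by rw [hθ]; linarith
  have hθs : θ ^ s ≤ 1 := pow_le_one₀ hθ0.le hθ1.le
  have hθs1 : θ ^ (s + 1) ≤ θ := by
    calc θ ^ (s + 1) ≤ θ ^ 1 := pow_le_pow_of_le_one hθ0.le hθ1.le (by omega)
      _ = θ := pow_one _
  have hden : 1 / (k : ℝ) ≤ 1 - θ ^ (s + 1) := by
    have : 1 / (k : ℝ) = 1 - θ := by rw [hθ]; ring
    linarith
  have hden0 : 0 < 1 - θ ^ (s + 1) := by linarith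
  have hρ0 : 0 < ρ := by positivity
  have hρ1 : ρ ≤ 1 := by rw [hρ, div_le_one hden0]; exact hden
  have hρe : (1 - θ ^ (s + 1)) * ρ = 1 / (k : ℝ) := by rw [hρ]; field_simp
  have hρe2 : (1 - θ ^ (s + 1)) * (1 - ρ) = θ * (1 - θ ^ s) := by
    have : (1 - θ ^ (s + 1)) * (1 - ρ) = (1 - θ ^ (s + 1)) - (1 - θ ^ (s + 1)) * ρ := by ring
    rw [this, hρe, pow_succ, hθ]
    ring
  have hbR : (2 : ℝ) ≤ b := by exact_mod_cast hb
  have hb1 : (1 : ℝ) ≤ b := by linarith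
  have hb0 : (0 : ℝ) < b := by linarith
  have hw0 : 0 < w := by
    rcases Nat.eq_zero_or_pos w with h | h
    · exfalso
      rw [h, Nat.cast_zero, Real.zero_rpow hden0.ne'] at hA
      have : 0 < C' * (b : ℝ) ^ (k * A) := by positivity
      linarith
    · exact h
  have hwR : (0 : ℝ) < w := by exact_mod_cast hw0
  have hw1 : (1 : ℝ) ≤ w := by exact_mod_cast hw0
  set a : ℕ := 3 + ⌊ρ * A⌋₊ with ha
  have hfl : (⌊ρ * A⌋₊ : ℝ) ≤ ρ * A := Nat.floor_le (by positivity)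
  have hfl2 : ρ * A < ⌊ρ * A⌋₊ + 1 := Nat.lt_floor_add_one _
  -- the first condition
  have hbkA : ∀ t : ℝ, ((b : ℝ) ^ (k * A)) ^ t = (b : ℝ) ^ ((k : ℝ) * (t * A)) := by
    intro t
    rw [← Real.rpow_natCast (b : ℝ) (k * A), ← Real.rpow_mul hb0.le]
    congr 1
    push_cast; ring
  have hfirst : (2 ^ k + 1 : ℝ) * (b : ℝ) ^ (k * a + γ) ≤ (w : ℝ) ^ (1 / (k : ℝ)) := by
    have e1 : (w : ℝ) ^ (1 / (k : ℝ)) = ((w : ℝ) ^ (1 - θ ^ (s + 1))) ^ ρ := by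
      rw [← Real.rpow_mul hwR.le, hρe]
    have e2 : (C' * (b : ℝ) ^ (k * A)) ^ ρ ≤ ((w : ℝ) ^ (1 - θ ^ (s + 1))) ^ ρ :=
      Real.rpow_le_rpow (by positivity) hA hρ0.le
    rw [e1]
    refine le_trans ?_ e2
    rw [Real.mul_rpow (by linarith) (by positivity), hbkA]
    have e3 : (b : ℝ) ^ (k * a + γ) = (b : ℝ) ^ (3 * k + γ) * (b : ℝ) ^ ((k : ℝ) * (⌊ρ * A⌋₊ : ℝ)) := by
      have : ((k : ℝ) * (⌊ρ * A⌋₊ : ℝ)) = ((k * ⌊ρ * A⌋₊ : ℕ) : ℝ) := by push_cast; ring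
      rw [this, Real.rpow_natCast, ← pow_add]
      congr 1
      rw [ha]; ring
    rw [e3, ← mul_assoc]
    apply mul_le_mul h1 _ (by positivity) (by positivity)
    exact Real.rpow_le_rpow_of_exponent_le hb1 (mul_le_mul_of_nonneg_left hfl hkR0.le)
  have hbig : ((2 ^ k + 1) * b ^ (k * a + (2 * c + 1))) ^ k ≤ w := by
    have e1 := pow_le_pow_left₀ (by positivity) hfirst k
    have e2 : ((w : ℝ) ^ (1 / (k : ℝ))) ^ k = w := by
      rw [← Real.rpow_natCast, ← Real.rpow_mul hwR.le, one_div, inv_mul_cancel₀ hkR0.ne', Real.rpow_one]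
    rw [e2] at e1
    exact_mod_cast e1
  obtain ⟨y, w1, hy1, hwy, hw1m, hw1l, hw1u⟩ := step hk hb hc hγ (by omega : 3 ≤ a) hw hbig
  have hw1R : (0 : ℝ) < w1 := lt_of_lt_of_le (by positivity) hw1l
  -- the second condition
  have hAa : ((A - a : ℕ) : ℝ) ≤ (1 - ρ) * A := by
    rcases le_total a A with h | h
    · rw [Nat.cast_sub h, ha]
      push_cast
      linarith
    · rw [Nat.sub_eq_zero_of_le h]
      have : 0 ≤ 1 - ρ := by linarith
      push_cast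
      positivity
  have hsecond : Cs * (b : ℝ) ^ (k * (A - a)) ≤ (w1 : ℝ) ^ (1 - θ ^ s) := by
    calc Cs * (b : ℝ) ^ (k * (A - a)) ≤ C' ^ (1 - ρ) * (b : ℝ) ^ ((k : ℝ) * ((1 - ρ) * A)) := by
          apply mul_le_mul h2 _ (by positivity) (by positivity)
          rw [← Real.rpow_natCast]
          apply Real.rpow_le_rpow_of_exponent_le hb1
          push_cast
          exact mul_le_mul_of_nonneg_left hAa hkR0.le
      _ = (C' * (b : ℝ) ^ (k * A)) ^ (1 - ρ) := by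
          rw [Real.mul_rpow (by linarith) (by positivity), hbkA]
      _ ≤ ((w : ℝ) ^ (1 - θ ^ (s + 1))) ^ (1 - ρ) := by
          apply Real.rpow_le_rpow (by positivity) hA (by linarith)
      _ = ((w : ℝ) ^ θ) ^ (1 - θ ^ s) := by
          rw [← Real.rpow_mul hwR.le, ← Real.rpow_mul hwR.le, hρe2]
      _ ≤ (w1 : ℝ) ^ (1 - θ ^ s) := by
          apply Real.rpow_le_rpow (by positivity) hw1l (by linarith)
  obtain ⟨x, A', w', hx, hsum, hA1, hA2, hw'm, hw'l, hw'u⟩ := hrep w1 (A - a) hw1m hsecond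
  have haA : a ≤ A + 3 := by
    have : (⌊ρ * A⌋₊ : ℝ) ≤ A := by
      refine hfl.trans ?_
      have : (0 : ℝ) ≤ A := by positivity
      nlinarith
    have h' : ⌊ρ * A⌋₊ ≤ A := by exact_mod_cast this
    omega
  refine ⟨Fin.cons y (fun i => b ^ a * x i), a + A', w', ?_, ?_, by omega, by omega, hw'm, ?_, ?_⟩
  · intro i
    refine Fin.cases ?_ (fun i => ?_) i
    · simpa using hy1
    · simp only [Fin.cons_succ]
      exact Nat.one_le_iff_ne_zero.2 (Nat.mul_ne_zero (pow_ne_zero _ (by omega)) (by have := hx i; omega))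
  · rw [Fin.sum_univ_succ]
    simp only [Fin.cons_zero, Fin.cons_succ]
    rw [hwy]
    nth_rewrite 1 [hsum]
    rw [mul_add, mul_sum]
    have e1 : ∀ i : Fin s, (b ^ a * x i) ^ k = b ^ (k * a) * x i ^ k := by
      intro i
      rw [mul_pow, ← pow_mul, mul_comm a k]
    simp_rw [e1]
    rw [mul_add k, pow_add]
    ring
  · refine le_trans ?_ hw'l
    rw [pow_succ', Real.rpow_mul hwR.le]
    exact Real.rpow_le_rpow (by positivity) hw1l (by positivity)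
  · refine hw'u.trans ?_
    have hc21 : 1 ≤ c2 := by
      have a1 : (1 : ℝ) ≤ 2 ^ k + 1 := by
        have : (0 : ℝ) < 2 ^ k := by positivity
        linarith
      have a2 : (1 : ℝ) ≤ 2 ^ (k - 1) := one_le_pow₀ (by norm_num)
      have a3 : (1 : ℝ) ≤ (b : ℝ) ^ γ := one_le_pow₀ hb1
      rw [hc2]
      have b1 : 1 ≤ (k : ℝ) * (2 ^ k + 1) := one_le_mul_of_one_le_of_one_le (by linarith) a1
      exact one_le_mul_of_one_le_of_one_le (one_le_mul_of_one_le_of_one_le b1 a2) a3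
    calc Cs * (w1 : ℝ) ^ (θ ^ s) ≤ Cs * (c2 * (w : ℝ) ^ θ) ^ (θ ^ s) := by
          gcongr
      _ = Cs * (c2 ^ (θ ^ s) * (w : ℝ) ^ (θ ^ (s + 1))) := by
          rw [Real.mul_rpow (by positivity) (by positivity), ← Real.rpow_mul hwR.le, pow_succ' θ s]
      _ ≤ Cs * (c2 * (w : ℝ) ^ (θ ^ (s + 1))) := by
          gcongr
          calc c2 ^ (θ ^ s) ≤ c2 ^ (1 : ℝ) := Real.rpow_le_rpow_of_exponent_le hc21 hθs
            _ = c2 := Real.rpow_one _
      _ = Cs * c2 * (w : ℝ) ^ (θ ^ (s + 1)) := by ring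
      _ ≤ C' * (w : ℝ) ^ (θ ^ (s + 1)) := by gcongr

lemma exists_rep {k b c : ℕ} (hk : 2 ≤ k) (hb : 2 ≤ b) (hc : Nat.gcd k (b ^ (c + 1)) ∣ b ^ c)
    (hγ : 2 * c + 1 ≤ 3 * k) (s : ℕ) : ∃ C : ℝ, 1 ≤ C ∧ Rep k b c s C := by
  induction s with
  | zero => exact ⟨1, le_rfl, rep_zero hk hb⟩
  | succ s ih =>
    obtain ⟨Cs, hCs, hrep⟩ := ih
    have hkR : (2 : ℝ) ≤ k := by exact_mod_cast hk
    have hkR0 : (0 : ℝ) < k := by linarith
    have hk1 : 1 / (k : ℝ) ≤ 1 / 2 := one_div_le_one_div_of_le (by norm_num) hkR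
    have hk1p : 0 < 1 / (k : ℝ) := by positivity
    set θ : ℝ := 1 - 1 / (k : ℝ) with hθ
    have hθ0 : 0 < θ := by rw [hθ]; linarith
    have hθ1 : θ < 1 := by rw [hθ]; linarith
    have hθs1 : θ ^ (s + 1) ≤ θ := by
      calc θ ^ (s + 1) ≤ θ ^ 1 := pow_le_pow_of_le_one hθ0.le hθ1.le (by omega)
        _ = θ := pow_one _
    have hkθ : 1 / (k : ℝ) = 1 - θ := by rw [hθ]; ring
    have hden0 : 0 < 1 - θ ^ (s + 1) := by linarith
    set ρ : ℝ := (1 / (k : ℝ)) / (1 - θ ^ (s + 1)) with hρ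
    have hρ0 : 0 < ρ := by positivity
    set c2 : ℝ := (k : ℝ) * (2 ^ k + 1) * 2 ^ (k - 1) * (b : ℝ) ^ (2 * c + 1) with hc2
    set c1 : ℝ := (2 ^ k + 1 : ℝ) * (b : ℝ) ^ (3 * k + (2 * c + 1)) with hc1
    rcases Nat.eq_zero_or_pos s with h0 | hs
    · subst h0
      -- the exponent `1 - ρ` is `0`; use the constant `1` for `s = 0`
      have hρ1 : ρ = 1 := by
        rw [hρ, zero_add, pow_one, hkθ]
        exact div_self (by linarith)
      refine ⟨max 1 (max c1 c2), le_max_left _ _, ?_⟩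
      apply rep_succ hk hb hc hγ le_rfl (rep_zero hk hb)
      · rw [← hθ, ← hρ, hρ1, Real.rpow_one]
        exact (le_max_left _ _).trans (le_max_right _ _)
      · rw [← hθ, ← hρ, hρ1, sub_self, Real.rpow_zero]
      · rw [one_mul]
        exact (le_max_right _ _).trans (le_max_right _ _)
      · exact le_max_left _ _
    · have hθs2 : θ ^ (s + 1) < θ := by
        calc θ ^ (s + 1) < θ ^ 1 := pow_lt_pow_right_of_lt_one₀ hθ0 hθ1 (by omega)
          _ = θ := pow_one _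
      have hρ1 : ρ < 1 := by rw [hρ, div_lt_one hden0, hkθ]; linarith
      have h1ρ : 0 < 1 - ρ := by linarith
      have hc1p : 0 < c1 := by
        have : (0 : ℝ) < b := by exact_mod_cast (by omega : 0 < b)
        positivity
      have key : ∀ u v : ℝ, 0 ≤ u → 0 < v → ∀ C : ℝ, u ^ (1 / v) ≤ C → u ≤ C ^ v := by
        intro u v hu hv C h
        calc u = (u ^ (1 / v)) ^ v := by
              rw [← Real.rpow_mul hu, one_div, inv_mul_cancel₀ hv.ne', Real.rpow_one]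
          _ ≤ C ^ v := Real.rpow_le_rpow (by positivity) h hv.le
      set C' : ℝ := max (max 1 (Cs * c2)) (max (c1 ^ (1 / ρ)) (Cs ^ (1 / (1 - ρ)))) with hC'
      refine ⟨C', (le_max_left _ _).trans (le_max_left _ _), ?_⟩
      apply rep_succ hk hb hc hγ hCs hrep
      · rw [← hθ, ← hρ]
        exact key _ _ hc1p.le hρ0 _ ((le_max_left _ _).trans (le_max_right _ _))
      · rw [← hθ, ← hρ]
        exact key _ _ (by linarith) h1ρ _ ((le_max_right _ _).trans (le_max_right _ _))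
      · exact (le_max_right _ _).trans (le_max_left _ _)
      · exact (le_max_left _ _).trans (le_max_left _ _)

end Pool.Agent.H16.WD
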