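import Mathlib
import Pool.Agent.H16.WD.Iter

/-!
# Simultaneous real and `b`-adic approximation by sums of `k`th powers
-/

set_option autoImplicit false

open Finset

namespace Pool.Agent.H16.WD

lemma approx {k b c t : ℕ} (hk : 2 ≤ k) (hb : 2 ≤ b) (hc : Nat.gcd k (b ^ (c + 1)) ∣ b ^ c)
    (hγ : 2 * c + 1 ≤ 3 * k)
    (hloc : ∀ n : ℕ, ∃ ρ : Fin t → ℕ, ∑ i, ρ i ^ k ≡ n [MOD b ^ (2 * c + 1)]) (s : ℕ) :
    ∃ C : ℝ, 1 ≤ C ∧ ∀ n M : ℕ, C * (b : ℝ) ^ M ≤ (n : ℝ) ^ (1 - (1 - 1 / (k : ℝ)) ^ s) →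
      ∃ (x : Fin (s + t) → ℕ) (w : ℕ), (∀ i, 1 ≤ x i) ∧ n = ∑ i, x i ^ k + b ^ M * w ∧
        (n : ℝ) ^ ((1 - 1 / (k : ℝ)) ^ s) ≤ 2 * w ∧ (w : ℝ) ≤ C * (n : ℝ) ^ ((1 - 1 / (k : ℝ)) ^ s) := by
  obtain ⟨Cs, hCs, hrep⟩ := exists_rep hk hb hc hγ s
  set θ : ℝ := 1 - 1 / (k : ℝ) with hθ
  have hkR : (2 : ℝ) ≤ k := by exact_mod_cast hk
  have hkR0 : (0 : ℝ) < k := by linarith
  have hk1 : 1 / (k : ℝ) ≤ 1 / 2 := one_div_le_one_div_of_le (by norm_num) hkR
  have hk1p : 0 < 1 / (k : ℝ) := by positivity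
  have hθ0 : 0 < θ := by rw [hθ]; linarith
  have hθ1 : θ < 1 := by rw [hθ]; linarith
  have hθs : θ ^ s ≤ 1 := pow_le_one₀ hθ0.le hθ1.le
  have hθs0 : 0 < θ ^ s := by positivity
  have hbR : (2 : ℝ) ≤ b := by exact_mod_cast hb
  have hb1 : (1 : ℝ) ≤ b := by linarith
  have hb0 : (0 : ℝ) < b := by linarith
  set q : ℕ := b ^ (2 * c + 1) with hq
  have hq0 : 0 < q := pow_pos (by omega) _
  set C : ℝ := 2 + 2 * (t * (2 * q) ^ k) + 2 * Cs * (b : ℝ) ^ (k + 3 * s * k) with hC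
  have hT0 : (0 : ℝ) ≤ 2 * (t * (2 * (q : ℝ)) ^ k) := by positivity
  have hB0 : (0 : ℝ) ≤ 2 * Cs * (b : ℝ) ^ (k + 3 * s * k) := by positivity
  have hC1 : 2 ≤ C := by rw [hC]; linarith
  refine ⟨C, by linarith, fun n M hM => ?_⟩
  have hbM : (1 : ℝ) ≤ (b : ℝ) ^ M := one_le_pow₀ hb1
  have hCb : C ≤ C * (b : ℝ) ^ M := le_mul_of_one_le_right (by linarith) hbM
  have hn0 : 0 < n := by
    rcases Nat.eq_zero_or_pos n with h | h
    · exfalso
      rw [h, Nat.cast_zero] at hM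
      have := Real.zero_rpow_le_one (1 - θ ^ s)
      linarith
    · exact h
  have hnR : (0 : ℝ) < n := by exact_mod_cast hn0
  have hn1 : (1 : ℝ) ≤ n := by exact_mod_cast hn0
  have hnC : C ≤ n := by
    calc C ≤ C * (b : ℝ) ^ M := hCb
      _ ≤ (n : ℝ) ^ (1 - θ ^ s) := hM
      _ ≤ (n : ℝ) ^ (1 : ℝ) := Real.rpow_le_rpow_of_exponent_le hn1 (by linarith)
      _ = n := Real.rpow_one _
  -- the small powers
  obtain ⟨ρ, hρ⟩ := hloc (n + (q - 1))
  set r : Fin t → ℕ := fun i => ρ i % q + q with hr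
  have hr1 : ∀ i, 1 ≤ r i := fun i => by simp only [hr]; omega
  have hr2 : ∀ i, r i ≤ 2 * q := fun i => by
    simp only [hr]
    have := Nat.mod_lt (ρ i) hq0
    omega
  have hrs : ∑ i, r i ^ k ≤ t * (2 * q) ^ k := by
    calc ∑ i, r i ^ k ≤ ∑ _i : Fin t, (2 * q) ^ k := sum_le_sum fun i _ => Nat.pow_le_pow_left (hr2 i) k
      _ = t * (2 * q) ^ k := by simp
  have hrm : ∑ i, r i ^ k ≡ n + (q - 1) [MOD q] := by
    refine Nat.ModEq.trans ?_ hρ
    have h1 : ∀ i, r i ≡ ρ i [MOD q] := fun i => by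
      simp only [hr, Nat.ModEq]
      rw [Nat.add_mod_right, Nat.mod_mod]
    have : ∀ (S : Finset (Fin t)), ∑ i ∈ S, r i ^ k ≡ ∑ i ∈ S, ρ i ^ k [MOD q] := by
      intro S
      induction S using Finset.induction_on with
      | empty => exact Nat.ModEq.refl _
      | insert a S ha ih =>
        rw [sum_insert ha, sum_insert ha]
        exact ((h1 a).pow k).add ih
    exact this univ
  set R := ∑ i, r i ^ k with hR
  have hRn : (2 * R : ℝ) ≤ n := by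
    have h1 : (R : ℝ) ≤ t * (2 * q) ^ k := by exact_mod_cast hrs
    have h2 : 2 * (t * (2 * (q : ℝ)) ^ k) ≤ n := by
      refine le_trans ?_ hnC
      rw [hC]; linarith
    linarith
  have hRn' : 2 * R ≤ n := by exact_mod_cast hRn
  obtain ⟨m, hm⟩ := Nat.exists_eq_add_of_le (by omega : R ≤ n)
  have hm1 : m ≡ 1 [MOD q] := by
    have h1 : R + m ≡ R + 1 [MOD q] := by
      rw [← hm]
      have h2 : R + 1 ≡ n + (q - 1) + 1 [MOD q] := hrm.add_right 1
      have h3 : n + (q - 1) + 1 = n + q := by omega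
      rw [h3] at h2
      have h4 : n + q ≡ n [MOD q] := by simp [Nat.ModEq]
      exact (h2.trans h4).symm
    exact Nat.ModEq.add_left_cancel' R h1
  have hmn : (n : ℝ) ≤ 2 * m := by
    have : n ≤ 2 * m := by omega
    exact_mod_cast this
  have hmn2 : (m : ℝ) ≤ n := by exact_mod_cast (by omega : m ≤ n)
  have hm0 : (0 : ℝ) < m := by linarith
  have hhalf : ∀ e : ℝ, 0 ≤ e → e ≤ 1 → (n : ℝ) ^ e ≤ 2 * (m : ℝ) ^ e := by
    intro e he he1
    calc (n : ℝ) ^ e ≤ (2 * (m : ℝ)) ^ e := Real.rpow_le_rpow hnR.le hmn he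
      _ = 2 ^ e * (m : ℝ) ^ e := by rw [Real.mul_rpow (by norm_num) hm0.le]
      _ ≤ 2 ^ (1 : ℝ) * (m : ℝ) ^ e := by
          gcongr
          norm_num
      _ = 2 * (m : ℝ) ^ e := by rw [Real.rpow_one]
  -- the size of the power of `b`
  set A := M / k + 1 with hA
  have hA1 : M ≤ k * A := by
    rw [hA, mul_add, mul_one]
    have h1 := Nat.div_add_mod M k
    have h2 := Nat.mod_lt M (by omega : 0 < k)
    omega
  have hA2 : k * A ≤ M + k := by
    rw [hA, mul_add, mul_one]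
    have h1 := Nat.div_add_mod M k
    omega
  have hcond : Cs * (b : ℝ) ^ (k * A) ≤ (m : ℝ) ^ (1 - θ ^ s) := by
    have h1 := hhalf (1 - θ ^ s) (by linarith) (by linarith)
    have h2 : 2 * (Cs * (b : ℝ) ^ (k * A)) ≤ C * (b : ℝ) ^ M := by
      have h3 : (b : ℝ) ^ (k * A) ≤ (b : ℝ) ^ (k + 3 * s * k) * (b : ℝ) ^ M := by
        rw [← pow_add]
        apply pow_le_pow_right₀ hb1
        have : 0 ≤ 3 * s * k := Nat.zero_le _
        omega
      calc 2 * (Cs * (b : ℝ) ^ (k * A)) ≤ 2 * (Cs * ((b : ℝ) ^ (k + 3 * s * k) * (b : ℝ) ^ M)) := by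
            gcongr
        _ = 2 * Cs * (b : ℝ) ^ (k + 3 * s * k) * (b : ℝ) ^ M := by ring
        _ ≤ C * (b : ℝ) ^ M := by
            gcongr
            rw [hC]; linarith
    linarith
  obtain ⟨x, A', w', hx, hsum, hAA', hA'A, -, hw'l, hw'u⟩ := hrep m A hm1 hcond
  have hkA' : M ≤ k * A' := hA1.trans (Nat.mul_le_mul_left k hAA')
  have hkA'2 : k * A' - M ≤ k + 3 * s * k := by
    have h1 : k * A' ≤ k * A + 3 * s * k := by
      calc k * A' ≤ k * (A + 3 * s) := Nat.mul_le_mul_left k hA'A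
        _ = _ := by ring
    omega
  refine ⟨Fin.append x r, b ^ (k * A' - M) * w', ?_, ?_, ?_, ?_⟩
  · intro i
    refine Fin.addCases (fun i => ?_) (fun i => ?_) i
    · rw [Fin.append_left]; exact hx i
    · rw [Fin.append_right]; exact hr1 i
  · rw [Fin.sum_univ_add]
    simp_rw [Fin.append_left, Fin.append_right]
    rw [← mul_assoc, ← pow_add, Nat.add_sub_cancel' hkA', hm]
    nth_rewrite 1 [hsum]
    rw [← hR]
    ring
  · push_cast
    have h1 := hhalf (θ ^ s) hθs0.le hθs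
    have h2 : (w' : ℝ) ≤ (b : ℝ) ^ (k * A' - M) * w' :=
      le_mul_of_one_le_left (by positivity) (one_le_pow₀ hb1)
    linarith
  · push_cast
    calc (b : ℝ) ^ (k * A' - M) * w' ≤ (b : ℝ) ^ (k + 3 * s * k) * (Cs * (m : ℝ) ^ (θ ^ s)) := by
          apply mul_le_mul (pow_le_pow_right₀ hb1 hkA'2) hw'u (by positivity) (by positivity)
      _ = Cs * (b : ℝ) ^ (k + 3 * s * k) * (m : ℝ) ^ (θ ^ s) := by ring
      _ ≤ C * (n : ℝ) ^ (θ ^ s) := by
          apply mul_le_mul _ (Real.rpow_le_rpow hm0.le hmn2 hθs0.le) (by positivity) (by linarith)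
          have : 0 ≤ Cs * (b : ℝ) ^ (k + 3 * s * k) := by positivity
          rw [hC]; linarith

end Pool.Agent.H16.WD
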