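import Mathlib
import Pool.Agent.H16.WD.Approx

/-!
# Blocks of digits
-/

set_option autoImplicit false

open Finset

namespace Pool.Agent.H16.WD

lemma block {k b c t : ℕ} (hk : 2 ≤ k) (hb : 2 ≤ b) (hc : Nat.gcd k (b ^ (c + 1)) ∣ b ^ c)
    (hγ : 2 * c + 1 ≤ 3 * k)
    (hloc : ∀ n : ℕ, ∃ ρ : Fin t → ℕ, ∑ i, ρ i ^ k ≡ n [MOD b ^ (2 * c + 1)]) (s : ℕ) :
    ∃ c0 : ℕ, ∀ n L M D : ℕ, b ^ (L - 1) ≤ n → n < b ^ L → M + D ≤ L →
      (1 - 1 / (k : ℝ)) ^ s * L + c0 ≤ D →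
      ∃ x : Fin (s + t) → ℕ, (∀ i, 1 ≤ x i) ∧ (∑ i, x i ^ k) % b ^ M = n % b ^ M ∧
        (∑ i, x i ^ k) / b ^ (M + D) = n / b ^ (M + D) := by
  obtain ⟨C, hC1, hC⟩ := approx hk hb hc hγ hloc s
  set θ : ℝ := 1 - 1 / (k : ℝ) with hθ
  have hkR : (2 : ℝ) ≤ k := by exact_mod_cast hk
  have hk1 : 1 / (k : ℝ) ≤ 1 / 2 := one_div_le_one_div_of_le (by norm_num) hkR
  have hk1p : 0 < 1 / (k : ℝ) := by positivity
  have hθ0 : 0 < θ := by rw [hθ]; linarith
  have hθ1 : θ < 1 := by rw [hθ]; linarith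
  have hθs : θ ^ s ≤ 1 := pow_le_one₀ hθ0.le hθ1.le
  have hθs0 : 0 < θ ^ s := by positivity
  have hbR : (2 : ℝ) ≤ b := by exact_mod_cast hb
  have hb1 : (1 : ℝ) ≤ b := by linarith
  have hb0 : (0 : ℝ) < b := by linarith
  obtain ⟨c0, hc0⟩ := pow_unbounded_of_one_lt ((b : ℝ) * C) (by linarith : (1 : ℝ) < b)
  refine ⟨c0, fun n L M D hnL hnL2 hMD hD => ?_⟩
  set T := n / b ^ (M + D) with hT
  set low := n % b ^ M with hlow
  have hbM : 0 < b ^ M := pow_pos (by omega) _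
  have hbD : 0 < b ^ D := pow_pos (by omega) _
  have hlowlt : low < b ^ M := Nat.mod_lt _ hbM
  set n' : ℕ := T * b ^ (M + D) + (b ^ D - 1) * b ^ M + low with hn'
  have hnn' : n ≤ n' := by
    have h1 : n = n / b ^ M * b ^ M + low := by
      rw [hlow, mul_comm]; exact (Nat.div_add_mod _ _).symm
    have h2 : n / b ^ M = T * b ^ D + n / b ^ M % b ^ D := by
      have : n / b ^ M / b ^ D = T := by rw [Nat.div_div_eq_div_mul, ← pow_add]
      rw [← this, mul_comm]; exact (Nat.div_add_mod _ _).symm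
    have h3 : n / b ^ M % b ^ D ≤ b ^ D - 1 := by
      have := Nat.mod_lt (n / b ^ M) hbD
      omega
    calc n = (T * b ^ D + n / b ^ M % b ^ D) * b ^ M + low := by rw [← h2]; exact h1
      _ ≤ (T * b ^ D + (b ^ D - 1)) * b ^ M + low := by gcongr
      _ = n' := by rw [hn', pow_add]; ring
  have hTlt : T < b ^ (L - (M + D)) := by
    rw [hT]
    apply Nat.div_lt_of_lt_mul
    rw [← pow_add]
    have : M + D + (L - (M + D)) = L := by omega
    rw [this]; exact hnL2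
  have hrest : ∀ v : ℕ, v ≤ b ^ D - 1 → v * b ^ M + low < b ^ (M + D) := by
    intro v hv
    have h1 : v + 1 ≤ b ^ D := by omega
    calc v * b ^ M + low < v * b ^ M + b ^ M := by omega
      _ = (v + 1) * b ^ M := by ring
      _ ≤ b ^ D * b ^ M := Nat.mul_le_mul_right _ h1
      _ = b ^ (M + D) := by rw [pow_add]; ring
  have hn'lt : n' < b ^ L := by
    have h1 := hrest (b ^ D - 1) le_rfl
    calc n' < T * b ^ (M + D) + b ^ (M + D) := by rw [hn']; omega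
      _ = (T + 1) * b ^ (M + D) := by ring
      _ ≤ b ^ (L - (M + D)) * b ^ (M + D) := Nat.mul_le_mul_right _ hTlt
      _ = b ^ L := by rw [← pow_add]; congr 1; omega
  -- the condition
  have hMDR : (M : ℝ) + D ≤ L := by exact_mod_cast hMD
  have hLR : (1 : ℝ) ≤ L := by
    rcases Nat.eq_zero_or_pos L with h | h
    · exfalso
      subst h
      simp at hnL hnL2
      omega
    · exact_mod_cast h
  have hL1 : ((L - 1 : ℕ) : ℝ) = (L : ℝ) - 1 := by
    rw [Nat.cast_sub (by exact_mod_cast hLR)]; simp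
  have hcond : C * (b : ℝ) ^ M ≤ (n' : ℝ) ^ (1 - θ ^ s) := by
    have h1 : (b : ℝ) ^ (((L : ℝ) - 1) * (1 - θ ^ s)) ≤ (n' : ℝ) ^ (1 - θ ^ s) := by
      rw [Real.rpow_mul hb0.le]
      apply Real.rpow_le_rpow (by positivity) _ (by linarith)
      rw [← hL1, Real.rpow_natCast]
      exact_mod_cast hnL.trans hnn'
    refine le_trans ?_ h1
    have h2 : (M : ℝ) + (c0 - 1) ≤ ((L : ℝ) - 1) * (1 - θ ^ s) := by
      have e : ((L : ℝ) - 1) * (1 - θ ^ s) = L - 1 - θ ^ s * L + θ ^ s := by ring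
      rw [e]; linarith
    calc C * (b : ℝ) ^ M ≤ (b : ℝ) ^ ((c0 : ℝ) - 1) * (b : ℝ) ^ M := by
          gcongr
          rw [Real.rpow_sub hb0, Real.rpow_natCast, Real.rpow_one, le_div_iff₀ hb0]
          linarith
      _ = (b : ℝ) ^ ((M : ℝ) + (c0 - 1)) := by
          rw [Real.rpow_add hb0, Real.rpow_natCast]; ring
      _ ≤ _ := Real.rpow_le_rpow_of_exponent_le hb1 h2
  obtain ⟨x, w, hx, hsum, -, hw⟩ := hC n' M hcond
  have hwD : w < b ^ D := by
    have h1 : (w : ℝ) < (b : ℝ) ^ D := by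
      calc (w : ℝ) ≤ C * (n' : ℝ) ^ (θ ^ s) := hw
        _ ≤ C * ((b : ℝ) ^ L) ^ (θ ^ s) := by
            gcongr
            exact_mod_cast hn'lt.le
        _ ≤ (b : ℝ) * C * ((b : ℝ) ^ L) ^ (θ ^ s) := by
            gcongr
            exact le_mul_of_one_le_left (by linarith) hb1
        _ < (b : ℝ) ^ c0 * ((b : ℝ) ^ L) ^ (θ ^ s) := by gcongr
        _ = (b : ℝ) ^ (θ ^ s * L + c0) := by
            rw [← Real.rpow_natCast (b : ℝ) L, ← Real.rpow_mul hb0.le, Real.rpow_add hb0, Real.rpow_natCast,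
              mul_comm (θ ^ s)]
            ring
        _ ≤ (b : ℝ) ^ (D : ℝ) := Real.rpow_le_rpow_of_exponent_le hb1 hD
        _ = (b : ℝ) ^ D := Real.rpow_natCast _ _
    exact_mod_cast h1
  refine ⟨x, hx, ?_, ?_⟩
  · have h1 : n' % b ^ M = (∑ i, x i ^ k) % b ^ M := by
      rw [hsum, Nat.add_mul_mod_self_left]
    rw [← h1, hn', pow_add]
    have : T * (b ^ M * b ^ D) + (b ^ D - 1) * b ^ M + low = low + b ^ M * (T * b ^ D + (b ^ D - 1)) := by ring
    rw [this, Nat.add_mul_mod_self_left]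
    exact Nat.mod_eq_of_lt hlowlt
  · have h1 : ∑ i, x i ^ k = T * b ^ (M + D) + ((b ^ D - 1 - w) * b ^ M + low) := by
      obtain ⟨v, hv⟩ := Nat.exists_eq_add_of_le (by omega : w ≤ b ^ D - 1)
      have e : b ^ D - 1 - w = v := by omega
      rw [e]
      have h2 : n' = T * b ^ (M + D) + (w + v) * b ^ M + low := by rw [hn', ← hv]
      have h3 : (w + v) * b ^ M = b ^ M * w + v * b ^ M := by ring
      omega
    rw [h1, Nat.mul_comm T, Nat.mul_add_div (pow_pos (by omega) _),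
      Nat.div_eq_of_lt (hrest _ (Nat.sub_le _ _)), add_zero]

/-- the same for the digits -/
lemma digits_eq {b M D S n : ℕ} (hb : 2 ≤ b) (h1 : S % b ^ M = n % b ^ M) (h2 : S / b ^ (M + D) = n / b ^ (M + D))
    (j : ℕ) (hj : j < M ∨ M + D ≤ j) : (Nat.digits b S).getD j 0 = (Nat.digits b n).getD j 0 := by
  rw [Nat.getD_digits _ _ hb, Nat.getD_digits _ _ hb]
  rcases hj with hj | hj
  · have e : ∀ m : ℕ, m / b ^ j % b = (m % b ^ M) % (b ^ j * b) / b ^ j := by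
      intro m
      rw [Nat.mod_mod_of_dvd, Nat.mod_mul_right_div_self]
      rw [← pow_succ]
      exact pow_dvd_pow _ hj
    rw [e, e, h1]
  · obtain ⟨i, rfl⟩ := Nat.exists_eq_add_of_le hj
    rw [pow_add _ (M + D), ← Nat.div_div_eq_div_mul, ← Nat.div_div_eq_div_mul, h2]

end Pool.Agent.H16.WD
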