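import Mathlib
import Pool.Agent.H16.WD.Approx
import Pool.Graph.R_pool_sql_team_seeded_b0a926ef.R781.WR.Forms

/-!
# A positive proportion of one progression suffices
-/

set_option autoImplicit false

open Finset Filter

namespace Pool.Agent.H16.WD

/-- sums of `N` `k`th powers -/
def Sums (k N n : ℕ) : Prop := ∃ x : Fin N → ℕ, n = ∑ i, x i ^ k

lemma Sums.add {k N N' n n' : ℕ} (h : Sums k N n) (h' : Sums k N' n') : Sums k (N + N') (n + n') := by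
  obtain ⟨x, hx⟩ := h
  obtain ⟨y, hy⟩ := h'
  refine ⟨Fin.append x y, ?_⟩
  rw [Fin.sum_univ_add]
  simp_rw [Fin.append_left, Fin.append_right]
  rw [hx, hy]

lemma Sums.mul {k N n : ℕ} (h : Sums k N n) (c : ℕ) : Sums k N (c ^ k * n) := by
  obtain ⟨x, hx⟩ := h
  refine ⟨fun i => c * x i, ?_⟩
  simp_rw [mul_pow]
  rw [← mul_sum, hx]

lemma progression {k b : ℕ} (hk : 2 ≤ k) (hb : 2 ≤ b) {s0 s : ℕ} {t δ : ℝ} (hδ : 0 < δ)
    (hs : (1 - 1 / (k : ℝ)) ^ s < t) (ht1 : t ≤ 1) {X0 : ℕ}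
    (H : ∀ X : ℕ, X0 ≤ X → ∃ A r L : ℕ, r + b ^ (k * A) * L ≤ X ∧ (X : ℝ) ^ t ≤ L ∧
      δ * L ≤ ({j : ℕ | j < L ∧ Sums k s0 (r + b ^ (k * A) * j)}.ncard : ℝ)) :
    ∃ N : ℕ, ∀ n : ℕ, N ≤ n → Sums k (2 * s0 + s + 8 * k) n := by
  have hc := gcd_pow_dvd (k := k) (b := b) (by omega) (by omega)
  have hloc : ∀ q, 1 ≤ q → R500.WB.Loc k (4 * k) q := fun q hq => R500.WB.Loc.four (by omega) hq
  obtain ⟨C, hC1, hC⟩ := approx hk hb hc (by omega) (hloc (b ^ (2 * k + 1)) (Nat.one_le_pow _ _ (by omega))) s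
  obtain ⟨Cf, hCf⟩ := R781.WR.form_uniform (k := k) (t := 4 * k) (by omega) (by omega) hloc
    (δ := δ / 5) (by positivity)
  obtain ⟨Nf, hNf⟩ := eventually_atTop.1 hCf
  set θ : ℝ := 1 - 1 / (k : ℝ) with hθ
  have hkR : (2 : ℝ) ≤ k := by exact_mod_cast hk
  have hk1 : 1 / (k : ℝ) ≤ 1 / 2 := one_div_le_one_div_of_le (by norm_num) hkR
  have hk1p : 0 < 1 / (k : ℝ) := by positivity
  have hθ0 : 0 < θ := by rw [hθ]; linarith
  have hθ1 : θ < 1 := by rw [hθ]; linarith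
  have hE0 : 0 < θ ^ s := by positivity
  have hbR : (2 : ℝ) ≤ b := by exact_mod_cast hb
  have hb1 : (1 : ℝ) ≤ b := by linarith
  have hb0 : (0 : ℝ) < b := by linarith
  set E := θ ^ s with hE
  have ht0 : 0 < t := hE0.trans hs
  have hE1' : E < 1 := by linarith
  have T : ∀ e : ℝ, 0 < e → ∀ B : ℝ, ∀ᶠ n : ℕ in atTop, B ≤ (n : ℝ) ^ e := fun e he B =>
    ((tendsto_rpow_atTop he).comp tendsto_natCast_atTop_atTop).eventually_ge_atTop B
  have hg3 : 0 < t - E := by linarith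
  obtain ⟨N, hN⟩ := eventually_atTop.1 (((T _ ht0 (40 * Nf)).and (T _ hg3 (40 * C))).and
    (eventually_ge_atTop (20 * (X0 + 1))))
  refine ⟨N, fun n hn => ?_⟩
  obtain ⟨⟨h2, h5⟩, h6⟩ := hN n hn
  have hnR1 : (20 : ℝ) ≤ n := by exact_mod_cast (by omega : 20 ≤ n)
  have hnR : (0 : ℝ) < n := by linarith
  have hXX : X0 ≤ n / 20 := by omega
  obtain ⟨A, r, L, hAX, hL, hcount⟩ := H _ hXX
  set X := n / 20 with hX
  have hX1 : 1 ≤ X := by omega
  have hXR1 : (1 : ℝ) ≤ X := by exact_mod_cast hX1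
  have hXR0 : (0 : ℝ) < X := by linarith
  have hXn : (X : ℝ) ≤ n := by exact_mod_cast (by omega : X ≤ n)
  have hnX : (n : ℝ) ≤ 40 * X := by exact_mod_cast (by omega : n ≤ 40 * X)
  -- lower bound for the length
  have hLn : (n : ℝ) ^ t / 40 ≤ L := by
    rw [div_le_iff₀ (by norm_num)]
    calc (n : ℝ) ^ t ≤ (40 * (X : ℝ)) ^ t := Real.rpow_le_rpow hnR.le hnX ht0.le
      _ = 40 ^ t * (X : ℝ) ^ t := by rw [Real.mul_rpow (by norm_num) hXR0.le]
      _ ≤ 40 ^ (1 : ℝ) * (X : ℝ) ^ t := by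
          gcongr
          norm_num
      _ = (X : ℝ) ^ t * 40 := by rw [Real.rpow_one]; ring
      _ ≤ L * 40 := by gcongr
  have hLpos : (0 : ℝ) < L := lt_of_lt_of_le (by positivity) hLn
  -- sizes
  have hle : 2 * (2 * r + b ^ (k * A) * (4 * L)) ≤ n := by
    have : 20 * (r + b ^ (k * A) * L) ≤ n := by omega
    nlinarith
  obtain ⟨n', hn'⟩ := Nat.exists_eq_add_of_le (by omega : 2 * r + b ^ (k * A) * (4 * L) ≤ n)
  have hn'1 : (n : ℝ) ≤ 2 * n' := by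
    have : n ≤ 2 * n' := by omega
    exact_mod_cast this
  have hn'2 : (n' : ℝ) ≤ n := by exact_mod_cast (by omega : n' ≤ n)
  have hn'0 : (0 : ℝ) < n' := by linarith
  have hbA : (b : ℝ) ^ (k * A) ≤ (n : ℝ) ^ (1 - t) := by
    have e1 : (b : ℝ) ^ (k * A) * L ≤ X := by
      have : b ^ (k * A) * L ≤ X := by omega
      exact_mod_cast this
    have e2 : (b : ℝ) ^ (k * A) * (X : ℝ) ^ t ≤ X := by
      refine le_trans ?_ e1
      gcongr
    calc (b : ℝ) ^ (k * A) ≤ X / (X : ℝ) ^ t := by rw [le_div_iff₀ (by positivity)]; exact e2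
      _ = (X : ℝ) ^ (1 - t) := by rw [Real.rpow_sub hXR0, Real.rpow_one]
      _ ≤ (n : ℝ) ^ (1 - t) := Real.rpow_le_rpow hXR0.le hXn (by linarith)
  have hcond : C * (b : ℝ) ^ (k * A) ≤ (n' : ℝ) ^ (1 - E) := by
    have e1 : (n : ℝ) ^ (1 - E) ≤ 2 * (n' : ℝ) ^ (1 - E) := by
      calc (n : ℝ) ^ (1 - E) ≤ (2 * (n' : ℝ)) ^ (1 - E) := Real.rpow_le_rpow hnR.le hn'1 (by linarith)
        _ = 2 ^ (1 - E) * (n' : ℝ) ^ (1 - E) := by rw [Real.mul_rpow (by norm_num) hn'0.le]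
        _ ≤ 2 ^ (1 : ℝ) * (n' : ℝ) ^ (1 - E) := by
            gcongr
            · norm_num
            · linarith
        _ = 2 * (n' : ℝ) ^ (1 - E) := by rw [Real.rpow_one]
    have e2 : 2 * (C * (b : ℝ) ^ (k * A)) ≤ (n : ℝ) ^ (1 - E) := by
      calc 2 * (C * (b : ℝ) ^ (k * A)) ≤ 2 * (C * (n : ℝ) ^ (1 - t)) := by gcongr
        _ = 2 * C * (n : ℝ) ^ (1 - t) := by ring
        _ ≤ (n : ℝ) ^ (t - E) * (n : ℝ) ^ (1 - t) := by
            gcongr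
            linarith
        _ = (n : ℝ) ^ (1 - E) := by rw [← Real.rpow_add hnR]; congr 1; ring
    linarith
  obtain ⟨x, w0, -, hsum, -, hw0⟩ := hC n' (k * A) hcond
  have hw0L : (w0 : ℝ) ≤ L := by
    calc (w0 : ℝ) ≤ C * (n' : ℝ) ^ E := hw0
      _ ≤ (n : ℝ) ^ (t - E) / 40 * (n : ℝ) ^ E := by
          gcongr
          rw [le_div_iff₀ (by norm_num)]
          linarith
      _ = (n : ℝ) ^ t / 40 := by
          rw [div_mul_eq_mul_div, ← Real.rpow_add hnR]; congr 2; ring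
      _ ≤ L := hLn
  have hw0L' : w0 ≤ L := by exact_mod_cast hw0L
  -- the number `w` and the dense set
  set D : Set ℕ := {j : ℕ | Sums k s0 (r + b ^ (k * A) * j)} with hD
  set w : ℕ := 4 * L + w0 with hw
  have hNfw : Nf ≤ w := by
    have : (Nf : ℝ) ≤ L := by
      refine le_trans ?_ hLn
      rw [le_div_iff₀ (by norm_num)]
      linarith
    have h7 : Nf ≤ L := by exact_mod_cast this
    omega
  have hsub : {j : ℕ | j < L ∧ Sums k s0 (r + b ^ (k * A) * j)} ⊆ D ∩ {m | 4 * m < w} := by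
    rintro m ⟨hm, hmS⟩
    exact ⟨hmS, by show 4 * m < w; omega⟩
  have hfin : (D ∩ {m | 4 * m < w}).Finite := by
    apply Set.Finite.subset (Set.finite_Iio w)
    rintro m ⟨-, hm⟩
    have hm2 : 4 * m < w := hm
    simp only [Set.mem_Iio]
    omega
  have hcard : δ / 5 * (w : ℝ) ≤ ((D ∩ {m | 4 * m < w}).ncard : ℝ) := by
    have h7 : (w : ℝ) ≤ 5 * L := by rw [hw]; push_cast; linarith
    have h8 := Set.ncard_le_ncard hsub hfin
    have h9 : (({j : ℕ | j < L ∧ Sums k s0 (r + b ^ (k * A) * j)}.ncard : ℕ) : ℝ) ≤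
      ((D ∩ {m | 4 * m < w}).ncard : ℝ) := by exact_mod_cast h8
    nlinarith
  obtain ⟨m1, hm1, m2, hm2, m, ⟨y, -, -, hy⟩, hmw⟩ := hNf w hNfw D D hcard hcard
  have g1 : Sums k s0 (r + b ^ (k * A) * m1) := hm1
  have g2 : Sums k s0 (r + b ^ (k * A) * m2) := hm2
  have g3 : Sums k (4 * k) (b ^ (k * A) * m) := by
    have h7 : Sums k (4 * k) m := ⟨y, hy.symm⟩
    have h8 := h7.mul (b ^ A)
    rwa [← pow_mul, mul_comm A k] at h8
  have g4 : Sums k (s + 4 * k) (∑ i, x i ^ k) := ⟨x, rfl⟩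
  have g5 := ((g4.add g1).add g2).add g3
  have e1 : s + 4 * k + s0 + s0 + 4 * k = 2 * s0 + s + 8 * k := by ring
  have e2 : ∑ i, x i ^ k + (r + b ^ (k * A) * m1) + (r + b ^ (k * A) * m2) + b ^ (k * A) * m = n := by
    calc _ = ∑ i, x i ^ k + 2 * r + b ^ (k * A) * (m1 + m2 + m) := by ring
      _ = ∑ i, x i ^ k + 2 * r + b ^ (k * A) * (4 * L + w0) := by rw [hmw]
      _ = 2 * r + b ^ (k * A) * (4 * L) + (∑ i, x i ^ k + b ^ (k * A) * w0) := by ring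
      _ = 2 * r + b ^ (k * A) * (4 * L) + n' := by rw [← hsum]
      _ = n := hn'.symm
  rw [e1, e2] at g5
  exact g5

end Pool.Agent.H16.WD
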