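import Mathlib
import Pool.Agent.H16.WD.Prog

/-!
# Two arbitrary sets which are dense on a short progression
-/

set_option autoImplicit false

open Finset Filter

namespace Pool.Agent.H16.WD

/-- two arbitrary sets, each containing a proportion `δ` of a progression with `L ≥ n ^ t` terms and difference
`b ^ (k A)` -/
lemma twoSets {k b : ℕ} (hk : 2 ≤ k) (hb : 2 ≤ b) {s : ℕ} {t δ : ℝ} (hδ : 0 < δ)
    (hs : (1 - 1 / (k : ℝ)) ^ s < t) (ht1 : t ≤ 1) :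
    ∃ N : ℕ, ∀ n : ℕ, N ≤ n → ∀ A r₁ r₂ L : ℕ, (n : ℝ) ^ t ≤ L → 8 * (r₁ + b ^ (k * A) * L) ≤ n →
      8 * (r₂ + b ^ (k * A) * L) ≤ n → ∀ S₁ S₂ : Set ℕ,
      δ * L ≤ ({j : ℕ | j < L ∧ r₁ + b ^ (k * A) * j ∈ S₁}.ncard : ℝ) →
      δ * L ≤ ({j : ℕ | j < L ∧ r₂ + b ^ (k * A) * j ∈ S₂}.ncard : ℝ) →
      ∃ σ₁ ∈ S₁, ∃ σ₂ ∈ S₂, ∃ m : ℕ, Sums k (s + 8 * k) m ∧ σ₁ + σ₂ + m = n := by
  have hc := gcd_pow_dvd (k := k) (b := b) (by omega) (by omega)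
  have hloc : ∀ q, 1 ≤ q → R500.WB.Loc k (4 * k) q := fun q hq => R500.WB.Loc.four (by omega) hq
  obtain ⟨C, hC1, hC⟩ := approx hk hb hc (by omega) (hloc (b ^ (2 * k + 1)) (Nat.one_le_pow _ _ (by omega))) s
  obtain ⟨Cf, hCf⟩ := R781.WR.form_uniform (k := k) (t := 4 * k) (by omega) (by omega) hloc
    (δ := δ / 5) (by positivity)
  obtain ⟨Nf, hNf⟩ := eventually_atTop.1 hCf
  set θ : ℝ := 1 - 1 / (k : ℝ) with hθ
  have hkR : (2 : ℝ) ≤ k := by exact_mod_cast hk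
  have hk1 : 1 / (k : ℝ) ≤ 1 / 2 := one_div_le_one_div_of_le (by norm_num) hkR
  have hk1p : 0 < 1 / (k : ℝ) := by positivity
  have hθ0 : 0 < θ := by rw [hθ]; linarith
  have hθ1 : θ < 1 := by rw [hθ]; linarith
  have hE0 : 0 < θ ^ s := by positivity
  have hbR : (2 : ℝ) ≤ b := by exact_mod_cast hb
  have hb1 : (1 : ℝ) ≤ b := by linarith
  have hb0 : (0 : ℝ) < b := by linarith
  set E := θ ^ s with hE
  have ht0 : 0 < t := hE0.trans hs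
  have hE1' : E < 1 := by linarith
  have T : ∀ e : ℝ, 0 < e → ∀ B : ℝ, ∀ᶠ n : ℕ in atTop, B ≤ (n : ℝ) ^ e := fun e he B =>
    ((tendsto_rpow_atTop he).comp tendsto_natCast_atTop_atTop).eventually_ge_atTop B
  have hg3 : 0 < t - E := by linarith
  obtain ⟨N, hN⟩ := eventually_atTop.1 (((T _ ht0 Nf).and (T _ hg3 (2 * C))).and
    (eventually_ge_atTop 20))
  refine ⟨N, fun n hn A r₁ r₂ L hLn hr1 hr2 S₁ S₂ hcount₁ hcount₂ => ?_⟩
  obtain ⟨⟨h2, h5⟩, h6⟩ := hN n hn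
  have hnR1 : (20 : ℝ) ≤ n := by exact_mod_cast h6
  have hnR : (0 : ℝ) < n := by linarith
  have hLpos : (0 : ℝ) < L := lt_of_lt_of_le (by positivity) hLn
  -- sizes
  have hle : 2 * (r₁ + r₂ + b ^ (k * A) * (4 * L)) ≤ n := by
    have e : b ^ (k * A) * (4 * L) = 4 * (b ^ (k * A) * L) := by ring
    rw [e]
    omega
  obtain ⟨n', hn'⟩ := Nat.exists_eq_add_of_le (by omega : r₁ + r₂ + b ^ (k * A) * (4 * L) ≤ n)
  have hn'1 : (n : ℝ) ≤ 2 * n' := by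
    have : n ≤ 2 * n' := by omega
    exact_mod_cast this
  have hn'2 : (n' : ℝ) ≤ n := by exact_mod_cast (by omega : n' ≤ n)
  have hn'0 : (0 : ℝ) < n' := by linarith
  have hbA : (b : ℝ) ^ (k * A) ≤ (n : ℝ) ^ (1 - t) := by
    have e1 : (b : ℝ) ^ (k * A) * L ≤ n := by
      have : b ^ (k * A) * L ≤ n := by omega
      exact_mod_cast this
    have e2 : (b : ℝ) ^ (k * A) * (n : ℝ) ^ t ≤ n := by
      refine le_trans ?_ e1
      gcongr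
    calc (b : ℝ) ^ (k * A) ≤ n / (n : ℝ) ^ t := by rw [le_div_iff₀ (by positivity)]; exact e2
      _ = (n : ℝ) ^ (1 - t) := by rw [Real.rpow_sub hnR, Real.rpow_one]
  have hcond : C * (b : ℝ) ^ (k * A) ≤ (n' : ℝ) ^ (1 - E) := by
    have e1 : (n : ℝ) ^ (1 - E) ≤ 2 * (n' : ℝ) ^ (1 - E) := by
      calc (n : ℝ) ^ (1 - E) ≤ (2 * (n' : ℝ)) ^ (1 - E) := Real.rpow_le_rpow hnR.le hn'1 (by linarith)
        _ = 2 ^ (1 - E) * (n' : ℝ) ^ (1 - E) := by rw [Real.mul_rpow (by norm_num) hn'0.le]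
        _ ≤ 2 ^ (1 : ℝ) * (n' : ℝ) ^ (1 - E) := by
            gcongr
            · norm_num
            · linarith
        _ = 2 * (n' : ℝ) ^ (1 - E) := by rw [Real.rpow_one]
    have e2 : 2 * (C * (b : ℝ) ^ (k * A)) ≤ (n : ℝ) ^ (1 - E) := by
      calc 2 * (C * (b : ℝ) ^ (k * A)) ≤ 2 * (C * (n : ℝ) ^ (1 - t)) := by gcongr
        _ = 2 * C * (n : ℝ) ^ (1 - t) := by ring
        _ ≤ (n : ℝ) ^ (t - E) * (n : ℝ) ^ (1 - t) := by
            gcongr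
        _ = (n : ℝ) ^ (1 - E) := by rw [← Real.rpow_add hnR]; congr 1; ring
    linarith
  obtain ⟨x, w0, -, hsum, -, hw0⟩ := hC n' (k * A) hcond
  have hw0L : (w0 : ℝ) ≤ L := by
    calc (w0 : ℝ) ≤ C * (n' : ℝ) ^ E := hw0
      _ ≤ (n : ℝ) ^ (t - E) * (n : ℝ) ^ E := by
          gcongr
          linarith
      _ = (n : ℝ) ^ t := by
          rw [← Real.rpow_add hnR]; congr 1; ring
      _ ≤ L := hLn
  have hw0L' : w0 ≤ L := by exact_mod_cast hw0L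
  -- the number `w` and the dense sets
  set D₁ : Set ℕ := {j : ℕ | r₁ + b ^ (k * A) * j ∈ S₁} with hD₁
  set D₂ : Set ℕ := {j : ℕ | r₂ + b ^ (k * A) * j ∈ S₂} with hD₂
  set w : ℕ := 4 * L + w0 with hw
  have hNfw : Nf ≤ w := by
    have : (Nf : ℝ) ≤ L := h2.trans hLn
    have h7 : Nf ≤ L := by exact_mod_cast this
    omega
  have hL0 : 0 < L := by exact_mod_cast hLpos
  have hdense : ∀ D : Set ℕ, δ * L ≤ ({j : ℕ | j < L ∧ j ∈ D}.ncard : ℝ) →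
      δ / 5 * (w : ℝ) ≤ ((D ∩ {m | 4 * m < w}).ncard : ℝ) := by
    intro D hD
    have hsub : {j : ℕ | j < L ∧ j ∈ D} ⊆ D ∩ {m | 4 * m < w} := by
      rintro m ⟨hm, hmS⟩
      exact ⟨hmS, by show 4 * m < w; omega⟩
    have hfin : (D ∩ {m | 4 * m < w}).Finite := by
      apply Set.Finite.subset (Set.finite_Iio w)
      rintro m ⟨-, hm⟩
      have hm2 : 4 * m < w := hm
      simp only [Set.mem_Iio]
      omega
    have h7 : (w : ℝ) ≤ 5 * L := by rw [hw]; push_cast; linarith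
    have h8 := Set.ncard_le_ncard hsub hfin
    have h9 : (({j : ℕ | j < L ∧ j ∈ D}.ncard : ℕ) : ℝ) ≤ ((D ∩ {m | 4 * m < w}).ncard : ℝ) := by exact_mod_cast h8
    nlinarith
  obtain ⟨m1, hm1, m2, hm2, m, ⟨y, -, -, hy⟩, hmw⟩ := hNf w hNfw D₁ D₂ (hdense D₁ hcount₁) (hdense D₂ hcount₂)
  have g3 : Sums k (4 * k) (b ^ (k * A) * m) := by
    have h7 : Sums k (4 * k) m := ⟨y, hy.symm⟩
    have h8 := h7.mul (b ^ A)
    rwa [← pow_mul, mul_comm A k] at h8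
  have g4 : Sums k (s + 4 * k) (∑ i, x i ^ k) := ⟨x, rfl⟩
  have g5 := g4.add g3
  have e1 : s + 4 * k + 4 * k = s + 8 * k := by ring
  rw [e1] at g5
  refine ⟨_, hm1, _, hm2, _, g5, ?_⟩
  calc r₁ + b ^ (k * A) * m1 + (r₂ + b ^ (k * A) * m2) + (∑ i, x i ^ k + b ^ (k * A) * m)
      = ∑ i, x i ^ k + (r₁ + r₂) + b ^ (k * A) * (m1 + m2 + m) := by ring
    _ = ∑ i, x i ^ k + (r₁ + r₂) + b ^ (k * A) * (4 * L + w0) := by rw [hmw]
    _ = r₁ + r₂ + b ^ (k * A) * (4 * L) + (∑ i, x i ^ k + b ^ (k * A) * w0) := by ring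
    _ = r₁ + r₂ + b ^ (k * A) * (4 * L) + n' := by rw [← hsum]
    _ = n := hn'.symm

end Pool.Agent.H16.WD
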