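import Mathlib
import Pool.Agent.H16.WD.Digits

/-!
# Removing denominators
-/

set_option autoImplicit false

open Finset Filter

namespace Pool.Agent.H16.WD

lemma reduction {k b c t : ℕ} (hk : 2 ≤ k) (hb : 2 ≤ b) (hc : Nat.gcd k (b ^ (c + 1)) ∣ b ^ c)
    (hγ : 2 * c + 1 ≤ 3 * k)
    (hloc : ∀ n : ℕ, ∃ ρ : Fin t → ℕ, ∑ i, ρ i ^ k ≡ n [MOD b ^ (2 * c + 1)]) {s0 s : ℕ} {K : ℝ} (hK : 0 < K)
    (hs : (1 + K) * (1 - 1 / (k : ℝ)) ^ s < 1) {m0 : ℕ}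
    (H : ∀ m : ℕ, m0 ≤ m → ∃ (A : ℕ) (x : Fin s0 → ℕ), (b : ℝ) ^ (k * A) ≤ (m : ℝ) ^ K ∧
      b ^ (k * A) * m = ∑ i, x i ^ k) :
    ∃ N : ℕ, ∀ n : ℕ, N ≤ n → ∃ x : Fin (s0 + (s + t)) → ℕ, n = ∑ i, x i ^ k := by
  obtain ⟨C, hC1, hC⟩ := approx hk hb hc hγ hloc s
  set θ : ℝ := 1 - 1 / (k : ℝ) with hθ
  have hkR : (2 : ℝ) ≤ k := by exact_mod_cast hk
  have hk1 : 1 / (k : ℝ) ≤ 1 / 2 := one_div_le_one_div_of_le (by norm_num) hkR
  have hk1p : 0 < 1 / (k : ℝ) := by positivity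
  have hθ0 : 0 < θ := by rw [hθ]; linarith
  have hθ1 : θ < 1 := by rw [hθ]; linarith
  have hθs0 : 0 < θ ^ s := by positivity
  have hbR : (2 : ℝ) ≤ b := by exact_mod_cast hb
  have hb1 : (1 : ℝ) ≤ b := by linarith
  have hb0 : (0 : ℝ) < b := by linarith
  set E := θ ^ s with hE
  have hg : 0 < 1 - E - E * K := by linarith
  have h1 : ∀ᶠ n : ℕ in atTop, (C * (b : ℝ) ^ k * C ^ K) ≤ (n : ℝ) ^ (1 - E - E * K) :=
    ((tendsto_rpow_atTop hg).comp tendsto_natCast_atTop_atTop).eventually_ge_atTop _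
  have h2 : ∀ᶠ n : ℕ in atTop, (2 * m0 : ℝ) ≤ (n : ℝ) ^ E :=
    ((tendsto_rpow_atTop hθs0).comp tendsto_natCast_atTop_atTop).eventually_ge_atTop _
  obtain ⟨N, hN⟩ := eventually_atTop.1 ((h1.and h2).and (eventually_ge_atTop 1))
  refine ⟨N, fun n hn => ?_⟩
  obtain ⟨⟨hn1, hn2⟩, hn3⟩ := hN n hn
  have hnR1 : (1 : ℝ) ≤ n := by exact_mod_cast hn3
  have hnR : (0 : ℝ) < n := by linarith
  have hnE : 1 ≤ (n : ℝ) ^ E := Real.one_le_rpow hnR1 hθs0.le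
  set X : ℝ := (C * (n : ℝ) ^ E) ^ K with hX
  have hX1 : 1 ≤ X := Real.one_le_rpow (one_le_mul_of_one_le_of_one_le hC1 hnE) hK.le
  have hbk : (1 : ℝ) < (b : ℝ) ^ k := one_lt_pow₀ (by linarith) (by omega)
  obtain ⟨a, ha1, ha2⟩ := exists_nat_pow_near hX1 hbk
  have hXle : X ≤ (b : ℝ) ^ (k * (a + 1)) := by rw [pow_mul]; exact ha2.le
  have hXge : (b : ℝ) ^ (k * (a + 1)) ≤ (b : ℝ) ^ k * X := by
    rw [mul_add, pow_add, mul_one, pow_mul, mul_comm]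
    gcongr
  have hcond : C * (b : ℝ) ^ (k * (a + 1)) ≤ (n : ℝ) ^ (1 - E) := by
    calc C * (b : ℝ) ^ (k * (a + 1)) ≤ C * ((b : ℝ) ^ k * X) := by gcongr
      _ = C * (b : ℝ) ^ k * C ^ K * (n : ℝ) ^ (E * K) := by
          rw [hX, Real.mul_rpow (by linarith) (by positivity), ← Real.rpow_mul hnR.le]
          ring
      _ ≤ (n : ℝ) ^ (1 - E - E * K) * (n : ℝ) ^ (E * K) := by gcongr
      _ = (n : ℝ) ^ (1 - E) := by rw [← Real.rpow_add hnR]; congr 1; ring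
  obtain ⟨x, w, -, hsum, hwl, hwu⟩ := hC n (k * (a + 1)) hcond
  have hm0w : m0 ≤ w := by
    have : (m0 : ℝ) ≤ w := by linarith
    exact_mod_cast this
  obtain ⟨A, y, hA, hy⟩ := H w hm0w
  have hAa : A ≤ a + 1 := by
    have h3 : (b : ℝ) ^ (k * A) ≤ (b : ℝ) ^ (k * (a + 1)) := by
      refine hA.trans (le_trans ?_ hXle)
      exact Real.rpow_le_rpow (by positivity) hwu hK.le
    have h4 : k * A ≤ k * (a + 1) := (pow_le_pow_iff_right₀ (by linarith : (1 : ℝ) < b)).1 h3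
    exact Nat.le_of_mul_le_mul_left h4 (by omega)
  refine ⟨Fin.append (fun i => b ^ (a + 1 - A) * y i) x, ?_⟩
  rw [Fin.sum_univ_add]
  simp_rw [Fin.append_left, Fin.append_right]
  have h5 : ∑ i, (b ^ (a + 1 - A) * y i) ^ k = b ^ (k * (a + 1)) * w := by
    simp_rw [mul_pow]
    rw [← mul_sum, ← hy, ← mul_assoc, ← pow_mul, ← pow_add]
    congr 2
    rw [mul_comm (a + 1 - A) k, ← mul_add]
    congr 1
    omega
  rw [h5]
  nth_rewrite 1 [hsum]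
  ring

end Pool.Agent.H16.WD
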