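import Mathlib

/-!
# Every residue class modulo a prime `p > k ^ 4` is a sum of two `k`th powers (Jacobi sums)
-/

set_option autoImplicit false

open Finset

namespace Pool.Agent.H16.WD

open Classical in
/-- the characters with `χ ^ k = 1` -/
noncomputable def chars (p k : ℕ) [Fact p.Prime] : Finset (MulChar (ZMod p) ℂ) :=
  haveI := Fintype.ofFinite (MulChar (ZMod p) ℂ)
  univ.filter fun χ => χ ^ k = 1

variable {p k : ℕ} [Fact p.Prime]

lemma mem_chars {χ : MulChar (ZMod p) ℂ} : χ ∈ chars p k ↔ χ ^ k = 1 := by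
  unfold chars
  simp

lemma card_chars (hk : 0 < k) : (chars p k).card ≤ k := by
  classical
  have := Fintype.ofFinite (MulChar (ZMod p) ℂ)
  obtain ⟨e⟩ := MulChar.mulEquiv_units (ZMod p) ℂ
  have : IsCyclic (MulChar (ZMod p) ℂ) := isCyclic_of_injective e.toMonoidHom e.injective
  refine le_trans (card_le_card (t := univ.filter fun χ : MulChar (ZMod p) ℂ => χ ^ k = 1) ?_)
    (IsCyclic.card_pow_eq_one_le hk)
  intro χ hχ
  rw [mem_chars] at hχ
  simp [hχ]

lemma exists_root_of_sum_ne_zero (hk : 0 < k) (u : ZMod p) (h : ∑ χ ∈ chars p k, χ u ≠ 0) : ∃ x : ZMod p, x ^ k = u := by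
  classical
  by_contra hno
  push Not at hno
  apply h
  have hu : u ≠ 0 := fun h0 => hno 0 (by rw [h0, zero_pow hk.ne'])
  set v : (ZMod p)ˣ := Units.mk0 u hu with hv
  set Hk : Subgroup (ZMod p)ˣ := (powMonoidHom k : (ZMod p)ˣ →* (ZMod p)ˣ).range with hHk
  have hvH : v ∉ Hk := by
    rintro ⟨y, hy⟩
    apply hno (y : ZMod p)
    have := congrArg (Units.val) hy
    simpa [hv] using this
  have hq : (QuotientGroup.mk v : (ZMod p)ˣ ⧸ Hk) ≠ 1 := by
    intro hq
    exact hvH ((QuotientGroup.eq_one_iff v).1 hq)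
  obtain ⟨φ, hφ⟩ := CommGroup.exists_apply_ne_one_of_hasEnoughRootsOfUnity ((ZMod p)ˣ ⧸ Hk) ℂ hq
  set ψ : (ZMod p)ˣ →* ℂˣ := φ.comp (QuotientGroup.mk' Hk) with hψ
  set χ0 : MulChar (ZMod p) ℂ := MulChar.ofUnitHom ψ with hχ0
  have h0k : χ0 ^ k = 1 := by
    apply MulChar.ext
    intro a
    rw [MulChar.pow_apply_coe, hχ0, MulChar.ofUnitHom_coe, MulChar.one_apply_coe]
    have h1 : ψ a ^ k = 1 := by
      rw [← map_pow, hψ, MonoidHom.comp_apply]
      have : (QuotientGroup.mk' Hk) (a ^ k) = 1 := by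
        rw [QuotientGroup.mk'_apply, QuotientGroup.eq_one_iff]
        exact ⟨a, rfl⟩
      rw [this, map_one]
    have := congrArg Units.val h1
    simpa using this
  have h0u : χ0 u ≠ 1 := by
    intro h1
    apply hφ
    apply Units.ext
    have h2 : χ0 ((v : (ZMod p)ˣ) : ZMod p) = ((ψ v : ℂˣ) : ℂ) := by rw [hχ0, MulChar.ofUnitHom_coe]
    have h3 : ((v : (ZMod p)ˣ) : ZMod p) = u := rfl
    rw [h3, h1] at h2
    rw [← QuotientGroup.mk'_apply]
    exact h2.symm
  have hshift : ∑ χ ∈ chars p k, χ u = χ0 u * ∑ χ ∈ chars p k, χ u := by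
    rw [mul_sum]
    refine sum_bij' (fun χ _ => χ0⁻¹ * χ) (fun χ _ => χ0 * χ) ?_ ?_ ?_ ?_ ?_
    · intro χ hχ
      rw [mem_chars] at hχ ⊢
      rw [mul_pow, inv_pow, h0k, hχ]; simp
    · intro χ hχ
      rw [mem_chars] at hχ ⊢
      rw [mul_pow, h0k, hχ]; simp
    · intro χ _; simp
    · intro χ _; simp
    · intro χ _
      rw [← MulChar.mul_apply, mul_inv_cancel_left]
  have h2 : (1 - χ0 u) * ∑ χ ∈ chars p k, χ u = 0 := by
    rw [sub_mul, one_mul, ← hshift, sub_self]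
  rcases mul_eq_zero.1 h2 with h3 | h3
  · exact absurd (sub_eq_zero.1 h3).symm h0u
  · exact h3

lemma norm_jacobi_le {χ φ : MulChar (ZMod p) ℂ} (h : ¬ (χ = 1 ∧ φ = 1)) : ‖jacobiSum χ φ‖ ≤ Real.sqrt p := by
  have hp : (1 : ℝ) ≤ p := by exact_mod_cast (Fact.out : p.Prime).one_le
  have h1 : (1 : ℝ) ≤ Real.sqrt p := by
    rw [← Real.sqrt_one]
    exact Real.sqrt_le_sqrt hp
  by_cases hχ : χ = 1
  · have hφ : φ ≠ 1 := fun hφ => h ⟨hχ, hφ⟩
    rw [hχ, jacobiSum_one_nontrivial hφ, norm_neg, norm_one]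
    exact h1
  by_cases hφ : φ = 1
  · rw [hφ, jacobiSum_comm, jacobiSum_one_nontrivial hχ, norm_neg, norm_one]
    exact h1
  by_cases hχφ : χ * φ = 1
  · have : φ = χ⁻¹ := eq_inv_of_mul_eq_one_right hχφ
    rw [this, jacobiSum_nontrivial_inv hχ, norm_neg]
    exact (DirichletCharacter.norm_le_one χ _).trans h1
  · have h2 := jacobiSum_mul_jacobiSum_inv (F := ZMod p) (F' := ℂ) (by
      rw [ringChar.eq_zero, ZMod.ringChar_zmod_n]
      exact (Fact.out : p.Prime).ne_zero.symm) hχ hφ hχφ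
    have h3 : jacobiSum χ⁻¹ φ⁻¹ = star (jacobiSum χ φ) := by
      unfold jacobiSum
      rw [star_sum]
      refine sum_congr rfl fun x _ => ?_
      rw [star_mul', MulChar.star_apply', MulChar.star_apply']
    rw [h3, ZMod.card] at h2
    have h4 : ‖jacobiSum χ φ‖ ^ 2 = p := by
      have h5 := congrArg norm h2
      rw [norm_mul, norm_star, Complex.norm_natCast] at h5
      rw [sq]; exact h5
    rw [← h4, Real.sqrt_sq (norm_nonneg _)]

lemma two_powers (hk : 2 ≤ k) (hp : k ^ 4 < p) (r : ZMod p) : ∃ x y : ZMod p, x ^ k + y ^ k = r := by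
  classical
  by_cases hr : r = 0
  · exact ⟨0, 0, by rw [hr, zero_pow (by omega), add_zero]⟩
  by_contra hno
  push Not at hno
  set w : ZMod p → ℂ := fun u => ∑ χ ∈ chars p k, χ u with hw
  have hzero : ∑ u : ZMod p, w u * w (r - u) = 0 := by
    apply sum_eq_zero
    intro u _
    by_contra hne
    have h1 : w u ≠ 0 := left_ne_zero_of_mul hne
    have h2 : w (r - u) ≠ 0 := right_ne_zero_of_mul hne
    obtain ⟨x, hx⟩ := exists_root_of_sum_ne_zero (by omega) u h1
    obtain ⟨y, hy⟩ := exists_root_of_sum_ne_zero (by omega) (r - u) h2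
    exact hno x y (by rw [hx, hy]; ring)
  have hexp : ∑ u : ZMod p, w u * w (r - u) = ∑ χ ∈ chars p k, ∑ φ ∈ chars p k, (χ r * φ r) * jacobiSum χ φ := by
    simp only [hw, sum_mul_sum]
    rw [sum_comm]
    refine sum_congr rfl fun χ _ => ?_
    rw [sum_comm]
    refine sum_congr rfl fun φ _ => ?_
    unfold jacobiSum
    rw [mul_sum]
    refine (Fintype.sum_equiv (Equiv.mulLeft₀ r hr) _ _ fun v => ?_).symm
    simp only [Equiv.mulLeft₀_apply]
    have e : r - r * v = r * (1 - v) := by ring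
    rw [e, map_mul, map_mul]
    ring
  rw [hexp] at hzero
  have h1mem : (1 : MulChar (ZMod p) ℂ) ∈ chars p k := by rw [mem_chars, one_pow]
  have hr1 : (1 : MulChar (ZMod p) ℂ) r = 1 := MulChar.one_apply (isUnit_iff_ne_zero.2 hr)
  -- split off the trivial pair
  have hsplit : ∑ v ∈ chars p k ×ˢ chars p k, (v.1 r * v.2 r) * jacobiSum v.1 v.2 =
      ((p : ℂ) - 2) + ∑ v ∈ (chars p k ×ˢ chars p k).erase (1, 1), (v.1 r * v.2 r) * jacobiSum v.1 v.2 := by
    rw [← add_sum_erase _ _ (mem_product.2 ⟨h1mem, h1mem⟩ : ((1 : MulChar (ZMod p) ℂ), (1 : MulChar (ZMod p) ℂ)) ∈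
      chars p k ×ˢ chars p k)]
    congr 1
    simp only [hr1, one_mul]
    rw [jacobiSum_one_one, ZMod.card]
  rw [← sum_product', hsplit] at hzero
  set m := (chars p k).card with hm
  have hmk : m ≤ k := card_chars (by omega)
  have hm1 : 1 ≤ m := card_pos.2 ⟨1, h1mem⟩
  have hbound : ‖∑ v ∈ (chars p k ×ˢ chars p k).erase (1, 1), (v.1 r * v.2 r) * jacobiSum v.1 v.2‖ ≤
      ((k : ℝ) ^ 2 - 1) * Real.sqrt p := by
    calc _ ≤ ∑ v ∈ (chars p k ×ˢ chars p k).erase (1, 1), Real.sqrt p := by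
          refine (norm_sum_le _ _).trans (sum_le_sum fun v hv => ?_)
          have hv1 : ¬ (v.1 = 1 ∧ v.2 = 1) := by
            rintro ⟨a1, a2⟩
            exact (ne_of_mem_erase hv) (Prod.ext a1 a2)
          rw [norm_mul, norm_mul]
          have a1 := DirichletCharacter.norm_le_one v.1 r
          have a2 := DirichletCharacter.norm_le_one v.2 r
          have a3 := norm_jacobi_le hv1
          calc ‖v.1 r‖ * ‖v.2 r‖ * ‖jacobiSum v.1 v.2‖ ≤ 1 * 1 * Real.sqrt p := by gcongr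
            _ = Real.sqrt p := by ring
      _ = ((m : ℝ) ^ 2 - 1) * Real.sqrt p := by
          rw [sum_const, nsmul_eq_mul, card_erase_of_mem (mem_product.2 ⟨h1mem, h1mem⟩), card_product,
            Nat.cast_sub (by nlinarith)]
          push_cast
          ring
      _ ≤ _ := by
          apply mul_le_mul_of_nonneg_right _ (Real.sqrt_nonneg _)
          have : (m : ℝ) ≤ k := by exact_mod_cast hmk
          have h0 : (0 : ℝ) ≤ m := by positivity
          nlinarith
  have hkey : (p : ℝ) - 2 ≤ ((k : ℝ) ^ 2 - 1) * Real.sqrt p := by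
    have h5 : ((p : ℂ) - 2) = -∑ v ∈ (chars p k ×ˢ chars p k).erase (1, 1), (v.1 r * v.2 r) * jacobiSum v.1 v.2 := by
      rw [eq_neg_iff_add_eq_zero]; exact hzero
    have h6 : ‖((p : ℂ) - 2)‖ ≤ ((k : ℝ) ^ 2 - 1) * Real.sqrt p := by
      rw [h5, norm_neg]; exact hbound
    refine le_trans ?_ h6
    have h7 : ((p : ℂ) - 2) = (((p : ℝ) - 2 : ℝ) : ℂ) := by push_cast; ring
    rw [h7, Complex.norm_real, Real.norm_eq_abs]
    exact le_abs_self _
  have hkR : (2 : ℝ) ≤ k := by exact_mod_cast hk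
  have hpR : (k : ℝ) ^ 4 < p := by exact_mod_cast hp
  have hsq : (k : ℝ) ^ 2 < Real.sqrt p := by
    rw [Real.lt_sqrt (by positivity)]
    have e : ((k : ℝ) ^ 2) ^ 2 = (k : ℝ) ^ 4 := by ring
    rw [e]
    exact hpR
  have hs2 : Real.sqrt p * Real.sqrt p = p := Real.mul_self_sqrt (by positivity)
  nlinarith

end Pool.Agent.H16.WD
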